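import Mathlib

/-! Two-sided bounds for central binomial coefficients. -/

set_option autoImplicit false

namespace Run7.h198

/-- normalised central binomial coefficient -/
noncomputable def cc (j : ℕ) : ℝ := (Nat.choose (2 * j) j : ℝ) / 2 ^ (2 * j)

/-- normalised middle binomial coefficient -/
noncomputable def bb (m : ℕ) : ℝ := (Nat.choose m (m / 2) : ℝ) / 2 ^ m

lemma cc_eq (j : ℕ) : cc j = (Nat.centralBinom j : ℝ) / 4 ^ j := by
  rw [cc, Nat.centralBinom_eq_two_mul_choose, pow_mul]; norm_num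

lemma cc_pos (j : ℕ) : 0 < cc j := by
  rw [cc_eq]
  have := Nat.centralBinom_pos j
  positivity

lemma bb_pos (m : ℕ) : 0 < bb m := by
  have : 0 < Nat.choose m (m / 2) := Nat.choose_pos (Nat.div_le_self m 2)
  rw [bb]
  positivity

lemma cc_succ (j : ℕ) : cc (j + 1) * (2 * j + 2) = cc j * (2 * j + 1) := by
  have h := Nat.succ_mul_centralBinom_succ j
  have h' : ((j : ℝ) + 1) * (Nat.centralBinom (j + 1) : ℝ) =
      2 * (2 * j + 1) * (Nat.centralBinom j : ℝ) := by exact_mod_cast h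
  rw [cc_eq, cc_eq, pow_succ]
  field_simp
  linarith

lemma cc_sq_succ (j : ℕ) : cc (j + 1) ^ 2 * (2 * j + 2) ^ 2 = cc j ^ 2 * (2 * j + 1) ^ 2 := by
  rw [← mul_pow, ← mul_pow, cc_succ]

lemma cc_upper (j : ℕ) : cc j ^ 2 * (2 * j + 1) ≤ 1 := by
  induction j with
  | zero => simp [cc]
  | succ j ih =>
    have h := cc_sq_succ j
    have hp : (0 : ℝ) < (2 * j + 2) ^ 2 := by positivity
    have h0 : 0 ≤ cc j ^ 2 := sq_nonneg _
    have hj : (0 : ℝ) ≤ j := Nat.cast_nonneg j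
    rw [← mul_le_mul_iff_of_pos_right hp]
    push_cast
    calc cc (j + 1) ^ 2 * (2 * ((j : ℝ) + 1) + 1) * (2 * (j : ℝ) + 2) ^ 2
        = (cc j ^ 2 * (2 * (j : ℝ) + 1)) * ((2 * (j : ℝ) + 1) * (2 * (j : ℝ) + 3)) := by
          rw [show cc (j + 1) ^ 2 * (2 * ((j : ℝ) + 1) + 1) * (2 * (j : ℝ) + 2) ^ 2 =
            (cc (j + 1) ^ 2 * (2 * (j : ℝ) + 2) ^ 2) * (2 * (j : ℝ) + 3) by ring, h]
          ring
      _ ≤ 1 * ((2 * (j : ℝ) + 1) * (2 * (j : ℝ) + 3)) := by
          apply mul_le_mul_of_nonneg_right ih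
          positivity
      _ ≤ 1 * (2 * (j : ℝ) + 2) ^ 2 := by nlinarith

lemma cc_mono_succ (j : ℕ) : (j : ℝ) * cc j ^ 2 ≤ ((j + 1 : ℕ) : ℝ) * cc (j + 1) ^ 2 := by
  have h := cc_sq_succ j
  have hp : (0 : ℝ) < (2 * j + 2) ^ 2 := by positivity
  have h0 : 0 ≤ cc j ^ 2 := sq_nonneg _
  have hj : (0 : ℝ) ≤ j := Nat.cast_nonneg j
  rw [← mul_le_mul_iff_of_pos_right hp]
  push_cast
  calc (j : ℝ) * cc j ^ 2 * (2 * j + 2) ^ 2 = cc j ^ 2 * (j * (2 * j + 2) ^ 2) := by ring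
    _ ≤ cc j ^ 2 * ((j + 1) * (2 * j + 1) ^ 2) := by
        apply mul_le_mul_of_nonneg_left _ h0
        nlinarith
    _ = (j + 1) * (cc j ^ 2 * (2 * j + 1) ^ 2) := by ring
    _ = (j + 1) * (cc (j + 1) ^ 2 * (2 * j + 2) ^ 2) := by rw [h]
    _ = ((j : ℝ) + 1) * cc (j + 1) ^ 2 * (2 * j + 2) ^ 2 := by ring

lemma cc_mono {i j : ℕ} (hij : i ≤ j) : (i : ℝ) * cc i ^ 2 ≤ (j : ℝ) * cc j ^ 2 := by
  induction j, hij using Nat.le_induction with
  | base => exact le_refl _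
  | succ j _ ih => exact ih.trans (cc_mono_succ j)

lemma cc_lower {j : ℕ} (hj : 1 ≤ j) : 1 ≤ 4 * (j : ℝ) * cc j ^ 2 := by
  have h := cc_mono hj
  have h1 : cc 1 = 1 / 2 := by
    rw [cc]; norm_num [Nat.choose]
  rw [h1] at h
  push_cast at h
  linarith

lemma bb_upper (m : ℕ) : bb m ^ 2 * (m + 1) ≤ 1 := by
  rcases Nat.even_or_odd' m with ⟨j, rfl | rfl⟩
  · have : bb (2 * j) = cc j := by
      rw [bb, cc, Nat.mul_div_cancel_left _ (by norm_num : 0 < 2)]
    rw [this]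
    have := cc_upper j
    push_cast
    exact this
  · have h1 : bb (2 * j + 1) = cc (j + 1) := by
      rw [bb, cc]
      have h2 : (2 * j + 1) / 2 = j := by omega
      rw [h2]
      have h3 : Nat.choose (2 * (j + 1)) (j + 1) = 2 * Nat.choose (2 * j + 1) j := by
        have : 2 * (j + 1) = (2 * j + 1) + 1 := by ring
        rw [this, Nat.choose_succ_succ, Nat.choose_symm_half]
        ring
      rw [h3]
      push_cast
      rw [show 2 * (j + 1) = (2 * j + 1) + 1 by ring, pow_succ]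
      field_simp
      ring
    rw [h1]
    have h := cc_upper (j + 1)
    push_cast at h ⊢
    have h0 : 0 ≤ cc (j + 1) ^ 2 := sq_nonneg _
    nlinarith

lemma choose_add_ge (m j s : ℕ) : s * m.choose j + m.choose (j + 1) ≤ (m + s).choose (j + 1) := by
  induction s with
  | zero => simp
  | succ s ih =>
    rw [← add_assoc, Nat.choose_succ_succ]
    have : m.choose j ≤ (m + s).choose j := Nat.choose_le_choose j (Nat.le_add_right m s)
    calc (s + 1) * m.choose j + m.choose (j + 1) = m.choose j + (s * m.choose j + m.choose (j + 1)) := by ring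
      _ ≤ (m + s).choose j + (m + s).choose (j + 1) := Nat.add_le_add this ih

lemma mul_choose_le {n k s : ℕ} (hk : 1 ≤ k) (hn : s ≤ n) :
    s * (n - s).choose (k - 1) ≤ n.choose k := by
  obtain ⟨m, rfl⟩ := Nat.exists_eq_add_of_le' hn
  obtain ⟨j, rfl⟩ := Nat.exists_eq_add_of_le' hk
  have := choose_add_ge m j s
  simp only [Nat.add_sub_cancel]
  omega

lemma real_bound {K D D' N N' c : ℕ} (h : c ≤ 2 ^ (K - (D + D')) * (N * N'))
    (hle : D + D' ≤ K) :
    (c : ℝ) ≤ 2 ^ K * ((N : ℝ) / 2 ^ D * ((N' : ℝ) / 2 ^ D')) := by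
  have h1 : (c : ℝ) ≤ 2 ^ (K - (D + D')) * ((N : ℝ) * N') := by exact_mod_cast h
  refine h1.trans (le_of_eq ?_)
  obtain ⟨r, rfl⟩ := Nat.exists_eq_add_of_le hle
  rw [Nat.add_sub_cancel_left, pow_add, pow_add]
  field_simp

end Run7.h198
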