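import Mathlib

/-!
Counting lemmas for uniformly random `k`-uniform hypergraphs: exact and upper bounds for the
number of hypergraphs in which prescribed vertices have (nearly) equal degrees.
-/

set_option autoImplicit false

namespace Run7.h198

open Finset

section Fibre

variable {α : Type*} [DecidableEq α]

lemma card_filter_le_two (K D₁ D₂ : Finset α) (h₁ : D₁ ⊆ K) (h₂ : D₂ ⊆ K)
    (hd : Disjoint D₁ D₂) (P : Finset α → Prop) [DecidablePred P]
    (Q₁ Q₂ : Finset α → Finset α → Prop) [∀ a b, Decidable (Q₁ a b)] [∀ a b, Decidable (Q₂ a b)]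
    (hPQ : ∀ H ⊆ K, P H → Q₁ (H \ (D₁ ∪ D₂)) (H ∩ D₁) ∧ Q₂ (H \ (D₁ ∪ D₂)) (H ∩ D₂))
    (N₁ N₂ : ℕ)
    (hN₁ : ∀ H₀, ((D₁.powerset).filter (fun X => Q₁ H₀ X)).card ≤ N₁)
    (hN₂ : ∀ H₀, ((D₂.powerset).filter (fun X => Q₂ H₀ X)).card ≤ N₂) :
    ((K.powerset).filter P).card ≤ 2 ^ (K.card - (D₁.card + D₂.card)) * (N₁ * N₂) := by
  have hsub : D₁ ∪ D₂ ⊆ K := union_subset h₁ h₂
  have hcard : (K \ (D₁ ∪ D₂)).card = K.card - (D₁.card + D₂.card) := by
    rw [card_sdiff_of_subset hsub, card_union_of_disjoint hd]
  have hmap : ∀ H ∈ (K.powerset).filter P, H \ (D₁ ∪ D₂) ∈ (K \ (D₁ ∪ D₂)).powerset := by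
    intro H hH
    rw [mem_filter, mem_powerset] at hH
    rw [mem_powerset]
    exact sdiff_subset_sdiff hH.1 (Subset.refl _)
  rw [card_eq_sum_card_fiberwise hmap]
  calc ∑ b ∈ (K \ (D₁ ∪ D₂)).powerset,
        (((K.powerset).filter P).filter (fun H => H \ (D₁ ∪ D₂) = b)).card
      ≤ ∑ _b ∈ (K \ (D₁ ∪ D₂)).powerset, N₁ * N₂ := by
        apply sum_le_sum
        intro b _
        have hinj : (((K.powerset).filter P).filter (fun H => H \ (D₁ ∪ D₂) = b)).card ≤
            (((D₁.powerset).filter (fun X => Q₁ b X)) ×ˢ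
              ((D₂.powerset).filter (fun X => Q₂ b X))).card := by
          apply card_le_card_of_injOn (fun H => (H ∩ D₁, H ∩ D₂))
          · intro H hH
            simp only [coe_filter, mem_filter, mem_powerset, Set.mem_ofPred_eq] at hH
            obtain ⟨⟨hHK, hHP⟩, hHb⟩ := hH
            obtain ⟨q₁, q₂⟩ := hPQ H hHK hHP
            rw [hHb] at q₁ q₂
            simp only [coe_product, coe_filter, mem_powerset, Set.mem_prod, Set.mem_ofPred_eq]
            exact ⟨⟨inter_subset_right, q₁⟩, ⟨inter_subset_right, q₂⟩⟩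
          · intro H hH H' hH' heq
            simp only [coe_filter, mem_filter, mem_powerset, Set.mem_ofPred_eq] at hH hH'
            simp only [Prod.mk.injEq] at heq
            have e1 : H = (H \ (D₁ ∪ D₂)) ∪ ((H ∩ D₁) ∪ (H ∩ D₂)) := by
              ext x
              simp only [mem_union, mem_sdiff, mem_inter]
              tauto
            have e2 : H' = (H' \ (D₁ ∪ D₂)) ∪ ((H' ∩ D₁) ∪ (H' ∩ D₂)) := by
              ext x
              simp only [mem_union, mem_sdiff, mem_inter]
              tauto
            rw [e1, e2, hH.2, hH'.2, heq.1, heq.2]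
        refine hinj.trans ?_
        rw [card_product]
        exact Nat.mul_le_mul (hN₁ b) (hN₂ b)
    _ = 2 ^ (K.card - (D₁.card + D₂.card)) * (N₁ * N₂) := by
        rw [sum_const, card_powerset, hcard, smul_eq_mul]

/-- Balanced differences: the number of `X ⊆ D = A ⊔ B` with `|X ∩ A| - |X ∩ B|` prescribed. -/
lemma card_balanced_le (D A B : Finset α) (hB : B ⊆ D) (hA : D \ B = A) (p q : ℕ) :
    ((D.powerset).filter (fun X => (X ∩ A).card + p = (X ∩ B).card + q)).card ≤
      D.card.choose (D.card / 2) := by
  have key : ((D.powerset).filter (fun X => (X ∩ A).card + p = (X ∩ B).card + q)).card ≤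
      (powersetCard (B.card + q - p) D).card := by
    apply card_le_card_of_injOn (fun X => symmDiff X B)
    · intro X hX
      simp only [coe_filter, mem_powerset, Set.mem_ofPred_eq] at hX
      obtain ⟨hXD, hXe⟩ := hX
      simp only [mem_coe, mem_powersetCard]
      constructor
      · rw [symmDiff_def, sup_eq_union]
        exact union_subset (sdiff_subset.trans hXD) (sdiff_subset.trans hB)
      · have h1 : (symmDiff X B).card = (X \ B).card + (B \ X).card := by
          rw [symmDiff_def, sup_eq_union, card_union_of_disjoint]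
          exact disjoint_sdiff_sdiff
        have h2 : (X \ B) = X ∩ A := by
          rw [← hA]
          ext x
          simp only [mem_sdiff, mem_inter]
          constructor
          · rintro ⟨h, h'⟩; exact ⟨h, hXD h, h'⟩
          · rintro ⟨h, _, h'⟩; exact ⟨h, h'⟩
        have h3 : (B \ X).card + (X ∩ B).card = B.card := by
          rw [inter_comm]
          exact card_sdiff_add_card_inter B X
        rw [h1, h2]
        omega
    · intro X _ Y _ h
      exact symmDiff_left_injective B h
  refine key.trans ?_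
  rw [card_powersetCard]
  exact Nat.choose_le_middle _ _

end Fibre

variable {n k : ℕ}

/-- The degree of `v` in `H`. -/
def deg (H : Finset (Finset (Fin n))) (v : Fin n) : ℕ := (H.filter (fun e => v ∈ e)).card

/-- The `k`-sets meeting `S` exactly in `x`. -/
def Ex (k : ℕ) (S : Finset (Fin n)) (x : Fin n) : Finset (Finset (Fin n)) :=
  (powersetCard k (univ : Finset (Fin n))).filter (fun e => e ∩ S = {x})

lemma mem_Ex {S : Finset (Fin n)} {x : Fin n} {e : Finset (Fin n)} :
    e ∈ Ex k S x ↔ e.card = k ∧ e ∩ S = {x} := by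
  simp [Ex, mem_powersetCard]

lemma card_Ex (S : Finset (Fin n)) (x : Fin n) (hx : x ∈ S) (hk : 1 ≤ k) :
    (Ex k S x).card = (n - S.card).choose (k - 1) := by
  have h1 : Ex k S x = (powersetCard (k - 1) (univ \ S)).image (insert x) := by
    ext e
    rw [mem_Ex, mem_image]
    constructor
    · rintro ⟨hc, he⟩
      have hxe : x ∈ e := by
        have : x ∈ e ∩ S := by rw [he]; exact mem_singleton_self x
        exact (mem_inter.1 this).1
      refine ⟨e.erase x, ?_, insert_erase hxe⟩
      rw [mem_powersetCard, card_erase_of_mem hxe, hc]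
      refine ⟨?_, rfl⟩
      intro y hy
      rw [mem_erase] at hy
      rw [mem_sdiff]
      refine ⟨mem_univ _, fun hyS => ?_⟩
      have : y ∈ e ∩ S := mem_inter.2 ⟨hy.2, hyS⟩
      rw [he, mem_singleton] at this
      exact hy.1 this
    · rintro ⟨f, hf, rfl⟩
      rw [mem_powersetCard] at hf
      have hxf : x ∉ f := fun h => (mem_sdiff.1 (hf.1 h)).2 hx
      constructor
      · rw [card_insert_of_notMem hxf, hf.2]; omega
      · ext y
        rw [mem_inter, mem_insert, mem_singleton]
        constructor
        · rintro ⟨h | h, hS⟩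
          · exact h
          · exact absurd hS (mem_sdiff.1 (hf.1 h)).2
        · rintro rfl
          exact ⟨Or.inl rfl, hx⟩
  rw [h1, card_image_of_injOn, card_powersetCard, card_sdiff_of_subset (subset_univ S), card_univ,
    Fintype.card_fin]
  intro f hf g hg hfg
  simp only [mem_coe, mem_powersetCard] at hf hg
  have hxf : x ∉ f := fun h => (mem_sdiff.1 (hf.1 h)).2 hx
  have hxg : x ∉ g := fun h => (mem_sdiff.1 (hg.1 h)).2 hx
  have := congrArg (fun s => s.erase x) hfg
  simpa [erase_insert hxf, erase_insert hxg] using this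

lemma Ex_subset (S : Finset (Fin n)) (x : Fin n) :
    Ex k S x ⊆ powersetCard k (univ : Finset (Fin n)) := filter_subset _ _

lemma Ex_disjoint {S : Finset (Fin n)} {x y : Fin n} (hxy : x ≠ y) :
    Disjoint (Ex k S x) (Ex k S y) := by
  rw [disjoint_left]
  intro e he he'
  rw [mem_Ex] at he he'
  have := he.2.symm.trans he'.2
  exact hxy (singleton_injective this)

lemma mem_of_mem_Ex {S : Finset (Fin n)} {x y : Fin n} {e : Finset (Fin n)}
    (he : e ∈ Ex k S x) (hy : y ∈ S) : y ∈ e ↔ y = x := by
  rw [mem_Ex] at he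
  constructor
  · intro h
    have : y ∈ e ∩ S := mem_inter.2 ⟨h, hy⟩
    rwa [he.2, mem_singleton] at this
  · rintro rfl
    have : y ∈ e ∩ S := by rw [he.2]; exact mem_singleton_self y
    exact (mem_inter.1 this).1

lemma deg_split (H D A : Finset (Finset (Fin n))) (u : Fin n)
    (hA : D.filter (fun e => u ∈ e) = A) : deg H u = deg (H \ D) u + (H ∩ A).card := by
  unfold deg
  rw [← hA, ← card_union_of_disjoint]
  · congr 1
    ext e
    simp only [mem_filter, mem_union, mem_sdiff, mem_inter]
    tauto
  · rw [disjoint_left]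
    intro e he he'
    simp only [mem_filter, mem_sdiff, mem_inter] at he he'
    exact he.1.2 he'.2.1

lemma one_pair_le (hk : 1 ≤ k) (u v : Fin n) (huv : u ≠ v) (c c' : ℕ) :
    (((powersetCard k (univ : Finset (Fin n))).powerset).filter
      (fun H => deg H u + c = deg H v + c')).card ≤
      2 ^ (n.choose k - 2 * (n - 2).choose (k - 1)) *
        (2 * (n - 2).choose (k - 1)).choose ((n - 2).choose (k - 1)) := by
  classical
  set S : Finset (Fin n) := {u, v} with hS
  have hSc : S.card = 2 := card_pair huv
  have huS : u ∈ S := by simp [hS]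
  have hvS : v ∈ S := by simp [hS]
  set A := Ex k S u with hA
  set B := Ex k S v with hB
  have hAB : Disjoint A B := Ex_disjoint huv
  set D := A ∪ B with hD
  have hAc : A.card = (n - 2).choose (k - 1) := by rw [hA, card_Ex S u huS hk, hSc]
  have hBc : B.card = (n - 2).choose (k - 1) := by rw [hB, card_Ex S v hvS hk, hSc]
  have hDc : D.card = 2 * (n - 2).choose (k - 1) := by
    rw [hD, card_union_of_disjoint hAB, hAc, hBc]; ring
  have hDu : (D ∪ ∅).filter (fun e => u ∈ e) = A := by
    ext e
    rw [mem_filter, union_empty, hD, mem_union]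
    constructor
    · rintro ⟨h | h, hu⟩
      · exact h
      · exact absurd ((mem_of_mem_Ex h huS).1 hu) huv
    · intro h
      exact ⟨Or.inl h, (mem_of_mem_Ex h huS).2 rfl⟩
  have hDv : (D ∪ ∅).filter (fun e => v ∈ e) = B := by
    ext e
    rw [mem_filter, union_empty, hD, mem_union]
    constructor
    · rintro ⟨h | h, hv⟩
      · exact absurd ((mem_of_mem_Ex h hvS).1 hv) huv.symm
      · exact h
    · intro h
      exact ⟨Or.inr h, (mem_of_mem_Ex h hvS).2 rfl⟩
  have hDK : D ⊆ powersetCard k (univ : Finset (Fin n)) :=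
    union_subset (Ex_subset S u) (Ex_subset S v)
  have := card_filter_le_two (powersetCard k (univ : Finset (Fin n))) D ∅ hDK (empty_subset _)
    (disjoint_empty_right D) (fun H => deg H u + c = deg H v + c')
    (fun H₀ X => (X ∩ A).card + (deg H₀ u + c) = (X ∩ B).card + (deg H₀ v + c'))
    (fun _ _ => True) (by
      intro H _ hP
      refine ⟨?_, trivial⟩
      rw [deg_split H (D ∪ ∅) A u hDu, deg_split H (D ∪ ∅) B v hDv] at hP
      have e1 : H ∩ D ∩ A = H ∩ A := by
        rw [inter_assoc, inter_eq_right.2 (subset_union_left : A ⊆ D)]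
      have e2 : H ∩ D ∩ B = H ∩ B := by
        rw [inter_assoc, inter_eq_right.2 (subset_union_right : B ⊆ D)]
      show (H ∩ D ∩ A).card + _ = (H ∩ D ∩ B).card + _
      rw [e1, e2]
      omega)
    (D.card.choose (D.card / 2)) 1
    (fun H₀ => card_balanced_le D A B subset_union_right
      (by rw [hD, union_sdiff_cancel_right hAB]) _ _)
    (fun _ => by
      refine (card_filter_le _ _).trans ?_
      simp)
  rw [hDc, card_powersetCard, card_univ, Fintype.card_fin, card_empty, add_zero, mul_one,
    Nat.mul_div_cancel_left _ (by norm_num : 0 < 2)] at this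
  exact this

/-- two disjoint pairs of vertices of equal degree -/
lemma two_pair_le (hk : 1 ≤ k) (u v w z : Fin n) (huv : u ≠ v) (hwz : w ≠ z)
    (huw : u ≠ w) (huz : u ≠ z) (hvw : v ≠ w) (hvz : v ≠ z) :
    (((powersetCard k (univ : Finset (Fin n))).powerset).filter
      (fun H => deg H u = deg H v ∧ deg H w = deg H z)).card ≤
      2 ^ (n.choose k - (2 * (n - 4).choose (k - 1) + 2 * (n - 4).choose (k - 1))) *
        ((2 * (n - 4).choose (k - 1)).choose ((n - 4).choose (k - 1)) *
        (2 * (n - 4).choose (k - 1)).choose ((n - 4).choose (k - 1))) := by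
  classical
  set S : Finset (Fin n) := {u, v, w, z} with hS
  have hSc : S.card = 4 := by
    rw [hS, card_insert_of_notMem (by simp [huv, huw, huz]),
      card_insert_of_notMem (by simp [hvw, hvz]), card_pair hwz]
  have huS : u ∈ S := by simp [hS]
  have hvS : v ∈ S := by simp [hS]
  have hwS : w ∈ S := by simp [hS]
  have hzS : z ∈ S := by simp [hS]
  set A := Ex k S u with hA
  set B := Ex k S v with hB
  set A' := Ex k S w with hA'
  set B' := Ex k S z with hB'
  have hAB : Disjoint A B := Ex_disjoint huv
  have hAB' : Disjoint A' B' := Ex_disjoint hwz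
  set D := A ∪ B with hD
  set D' := A' ∪ B' with hD'
  have hDD : Disjoint D D' := by
    rw [hD, hD', disjoint_union_left, disjoint_union_right, disjoint_union_right]
    exact ⟨⟨Ex_disjoint huw, Ex_disjoint huz⟩, ⟨Ex_disjoint hvw, Ex_disjoint hvz⟩⟩
  have hAc : A.card = (n - 4).choose (k - 1) := by rw [hA, card_Ex S u huS hk, hSc]
  have hBc : B.card = (n - 4).choose (k - 1) := by rw [hB, card_Ex S v hvS hk, hSc]
  have hAc' : A'.card = (n - 4).choose (k - 1) := by rw [hA', card_Ex S w hwS hk, hSc]
  have hBc' : B'.card = (n - 4).choose (k - 1) := by rw [hB', card_Ex S z hzS hk, hSc]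
  have hDc : D.card = 2 * (n - 4).choose (k - 1) := by
    rw [hD, card_union_of_disjoint hAB, hAc, hBc]; ring
  have hDc' : D'.card = 2 * (n - 4).choose (k - 1) := by
    rw [hD', card_union_of_disjoint hAB', hAc', hBc']; ring
  have hfil : ∀ x ∈ S, (D ∪ D').filter (fun e => x ∈ e) = Ex k S x := by
    intro x hx
    ext e
    rw [mem_filter, mem_union, hD, hD', mem_union, mem_union]
    constructor
    · rintro ⟨(h | h) | (h | h), hu⟩
      · have := (mem_of_mem_Ex h hx).1 hu; rw [this]; exact h
      · have := (mem_of_mem_Ex h hx).1 hu; rw [this]; exact h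
      · have := (mem_of_mem_Ex h hx).1 hu; rw [this]; exact h
      · have := (mem_of_mem_Ex h hx).1 hu; rw [this]; exact h
    · intro h
      refine ⟨?_, (mem_of_mem_Ex h hx).2 rfl⟩
      have hx' : x = u ∨ x = v ∨ x = w ∨ x = z := by
        simpa [hS] using hx
      rcases hx' with rfl | rfl | rfl | rfl
      · exact Or.inl (Or.inl h)
      · exact Or.inl (Or.inr h)
      · exact Or.inr (Or.inl h)
      · exact Or.inr (Or.inr h)
  have hDK : D ⊆ powersetCard k (univ : Finset (Fin n)) :=
    union_subset (Ex_subset S u) (Ex_subset S v)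
  have hDK' : D' ⊆ powersetCard k (univ : Finset (Fin n)) :=
    union_subset (Ex_subset S w) (Ex_subset S z)
  have := card_filter_le_two (powersetCard k (univ : Finset (Fin n))) D D' hDK hDK' hDD
    (fun H => deg H u = deg H v ∧ deg H w = deg H z)
    (fun H₀ X => (X ∩ A).card + (deg H₀ u) = (X ∩ B).card + (deg H₀ v))
    (fun H₀ X => (X ∩ A').card + (deg H₀ w) = (X ∩ B').card + (deg H₀ z)) (by
      intro H _ hP
      rw [deg_split H (D ∪ D') A u (hfil u huS), deg_split H (D ∪ D') B v (hfil v hvS),
        deg_split H (D ∪ D') A' w (hfil w hwS), deg_split H (D ∪ D') B' z (hfil z hzS)] at hP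
      have e1 : H ∩ D ∩ A = H ∩ A := by
        rw [inter_assoc, inter_eq_right.2 (subset_union_left : A ⊆ D)]
      have e2 : H ∩ D ∩ B = H ∩ B := by
        rw [inter_assoc, inter_eq_right.2 (subset_union_right : B ⊆ D)]
      have e3 : H ∩ D' ∩ A' = H ∩ A' := by
        rw [inter_assoc, inter_eq_right.2 (subset_union_left : A' ⊆ D')]
      have e4 : H ∩ D' ∩ B' = H ∩ B' := by
        rw [inter_assoc, inter_eq_right.2 (subset_union_right : B' ⊆ D')]
      show (H ∩ D ∩ A).card + _ = (H ∩ D ∩ B).card + _ ∧
        (H ∩ D' ∩ A').card + _ = (H ∩ D' ∩ B').card + _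
      rw [e1, e2, e3, e4]
      omega)
    (D.card.choose (D.card / 2)) (D'.card.choose (D'.card / 2))
    (fun H₀ => card_balanced_le D A B subset_union_right
      (by rw [hD, union_sdiff_cancel_right hAB]) _ _)
    (fun H₀ => card_balanced_le D' A' B' subset_union_right
      (by rw [hD', union_sdiff_cancel_right hAB']) _ _)
  rw [hDc, hDc', card_powersetCard, card_univ, Fintype.card_fin,
    Nat.mul_div_cancel_left _ (by norm_num : 0 < 2)] at this
  exact this

/-- three vertices with prescribed degree differences -/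
lemma triple_le (hk : 1 ≤ k) (u v w : Fin n) (huv : u ≠ v) (huw : u ≠ w) (hvw : v ≠ w)
    (c c' d d' : ℕ) :
    (((powersetCard k (univ : Finset (Fin n))).powerset).filter
      (fun H => deg H u + c = deg H v + c' ∧ deg H u + d = deg H w + d')).card ≤
      2 ^ (n.choose k - ((n - 3).choose (k - 1) + (n - 3).choose (k - 1))) *
        (((n - 3).choose (k - 1)).choose ((n - 3).choose (k - 1) / 2) *
        ((n - 3).choose (k - 1)).choose ((n - 3).choose (k - 1) / 2)) := by
  classical
  set S : Finset (Fin n) := {u, v, w} with hS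
  have hSc : S.card = 3 := by
    rw [hS, card_insert_of_notMem (by simp [huv, huw]), card_pair hvw]
  have huS : u ∈ S := by simp [hS]
  have hvS : v ∈ S := by simp [hS]
  have hwS : w ∈ S := by simp [hS]
  set D := Ex k S v with hD
  set D' := Ex k S w with hD'
  have hDD : Disjoint D D' := Ex_disjoint hvw
  have hDc : D.card = (n - 3).choose (k - 1) := by rw [hD, card_Ex S v hvS hk, hSc]
  have hDc' : D'.card = (n - 3).choose (k - 1) := by rw [hD', card_Ex S w hwS hk, hSc]
  have hfu : (D ∪ D').filter (fun e => u ∈ e) = ∅ := by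
    ext e
    rw [mem_filter, mem_union]
    constructor
    · rintro ⟨h | h, hu⟩
      · exact absurd ((mem_of_mem_Ex h huS).1 hu) huv
      · exact absurd ((mem_of_mem_Ex h huS).1 hu) huw
    · intro h; simp at h
  have hfv : (D ∪ D').filter (fun e => v ∈ e) = D := by
    ext e
    rw [mem_filter, mem_union]
    constructor
    · rintro ⟨h | h, hu⟩
      · exact h
      · exact absurd ((mem_of_mem_Ex h hvS).1 hu) hvw
    · intro h; exact ⟨Or.inl h, (mem_of_mem_Ex h hvS).2 rfl⟩
  have hfw : (D ∪ D').filter (fun e => w ∈ e) = D' := by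
    ext e
    rw [mem_filter, mem_union]
    constructor
    · rintro ⟨h | h, hu⟩
      · exact absurd ((mem_of_mem_Ex h hwS).1 hu) hvw.symm
      · exact h
    · intro h; exact ⟨Or.inr h, (mem_of_mem_Ex h hwS).2 rfl⟩
  have := card_filter_le_two (powersetCard k (univ : Finset (Fin n))) D D' (Ex_subset S v)
    (Ex_subset S w) hDD
    (fun H => deg H u + c = deg H v + c' ∧ deg H u + d = deg H w + d')
    (fun H₀ X => (X ∩ D).card + (deg H₀ v + c') = (X ∩ ∅).card + (deg H₀ u + c))
    (fun H₀ X => (X ∩ D').card + (deg H₀ w + d') = (X ∩ ∅).card + (deg H₀ u + d)) (by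
      intro H _ hP
      rw [deg_split H (D ∪ D') ∅ u hfu, deg_split H (D ∪ D') D v hfv,
        deg_split H (D ∪ D') D' w hfw] at hP
      simp only [inter_empty, card_empty, add_zero] at hP
      have e1 : H ∩ D ∩ D = H ∩ D := by rw [inter_assoc, inter_self]
      have e2 : H ∩ D' ∩ D' = H ∩ D' := by rw [inter_assoc, inter_self]
      show (H ∩ D ∩ D).card + _ = (H ∩ D ∩ ∅).card + _ ∧
        (H ∩ D' ∩ D').card + _ = (H ∩ D' ∩ ∅).card + _
      rw [e1, e2]
      simp only [inter_empty, card_empty, zero_add]
      omega)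
    (D.card.choose (D.card / 2)) (D'.card.choose (D'.card / 2))
    (fun H₀ => card_balanced_le D D ∅ (empty_subset _) (sdiff_empty) _ _)
    (fun H₀ => card_balanced_le D' D' ∅ (empty_subset _) (sdiff_empty) _ _)
  rw [hDc, hDc', card_powersetCard, card_univ, Fintype.card_fin] at this
  exact this

/-- lower bound for one pair -/
lemma one_pair_ge (hk : 1 ≤ k) (u v : Fin n) (huv : u ≠ v) :
    2 ^ (n.choose k - 2 * (n - 2).choose (k - 1)) *
        (2 * (n - 2).choose (k - 1)).choose ((n - 2).choose (k - 1)) ≤
    (((powersetCard k (univ : Finset (Fin n))).powerset).filter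
      (fun H => deg H u = deg H v)).card := by
  classical
  set S : Finset (Fin n) := {u, v} with hS
  have hSc : S.card = 2 := card_pair huv
  have huS : u ∈ S := by simp [hS]
  have hvS : v ∈ S := by simp [hS]
  set A := Ex k S u with hA
  set B := Ex k S v with hB
  have hAB : Disjoint A B := Ex_disjoint huv
  set D := A ∪ B with hD
  have hAc : A.card = (n - 2).choose (k - 1) := by rw [hA, card_Ex S u huS hk, hSc]
  have hBc : B.card = (n - 2).choose (k - 1) := by rw [hB, card_Ex S v hvS hk, hSc]
  have hDc : D.card = 2 * (n - 2).choose (k - 1) := by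
    rw [hD, card_union_of_disjoint hAB, hAc, hBc]; ring
  have hDu : D.filter (fun e => u ∈ e) = A := by
    ext e
    rw [mem_filter, hD, mem_union]
    constructor
    · rintro ⟨h | h, hu⟩
      · exact h
      · exact absurd ((mem_of_mem_Ex h huS).1 hu) huv
    · intro h
      exact ⟨Or.inl h, (mem_of_mem_Ex h huS).2 rfl⟩
  have hDv : D.filter (fun e => v ∈ e) = B := by
    ext e
    rw [mem_filter, hD, mem_union]
    constructor
    · rintro ⟨h | h, hv⟩
      · exact absurd ((mem_of_mem_Ex h hvS).1 hv) huv.symm
      · exact h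
    · intro h
      exact ⟨Or.inr h, (mem_of_mem_Ex h hvS).2 rfl⟩
  have hDK : D ⊆ powersetCard k (univ : Finset (Fin n)) :=
    union_subset (Ex_subset S u) (Ex_subset S v)
  set K := powersetCard k (univ : Finset (Fin n)) with hK
  have hKc : K.card = n.choose k := by
    rw [hK, card_powersetCard, card_univ, Fintype.card_fin]
  -- the injection
  have hcount : ((K \ D).powerset ×ˢ powersetCard ((n - 2).choose (k - 1)) D).card =
      2 ^ (n.choose k - 2 * (n - 2).choose (k - 1)) *
        (2 * (n - 2).choose (k - 1)).choose ((n - 2).choose (k - 1)) := by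
    rw [card_product, card_powerset, card_sdiff_of_subset hDK, hKc, hDc, card_powersetCard, hDc]
  rw [← hcount]
  have hsd : ∀ Y ⊆ D, symmDiff Y B ⊆ D := by
    intro Y hY
    rw [symmDiff_def, sup_eq_union]
    exact union_subset (sdiff_subset.trans hY) (sdiff_subset.trans subset_union_right)
  apply card_le_card_of_injOn (fun q => q.1 ∪ symmDiff q.2 B)
  · rintro ⟨H₀, Y⟩ hq
    simp only [mem_coe, mem_product, mem_powerset, mem_powersetCard] at hq
    obtain ⟨hH₀, hY, hYc⟩ := hq
    simp only [coe_filter, mem_powerset, Set.mem_ofPred_eq]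
    refine ⟨union_subset (hH₀.trans sdiff_subset) ((hsd Y hY).trans hDK), ?_⟩
    have hH₀D : Disjoint H₀ D := by
      rw [disjoint_left]
      intro e he heD
      exact (mem_sdiff.1 (hH₀ he)).2 heD
    have hdiff : (H₀ ∪ symmDiff Y B) \ D = H₀ := by
      rw [union_sdiff_distrib, sdiff_eq_empty_iff_subset.2 (hsd Y hY), union_empty]
      exact sdiff_eq_self_of_disjoint hH₀D
    rw [deg_split _ D A u hDu, deg_split _ D B v hDv, hdiff]
    -- degrees of `u` and `v` outside `D`
    have hout : deg H₀ u = deg H₀ v := by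
      unfold deg
      congr 1
      apply filter_congr
      intro e he
      have heK := hH₀ he
      rw [mem_sdiff] at heK
      obtain ⟨heK, heD⟩ := heK
      rw [hK, mem_powersetCard] at heK
      have hne : ∀ x ∈ S, (e ∩ S = {x}) → False := by
        intro x hx hex
        apply heD
        rw [hD, mem_union, hA, hB, mem_Ex, mem_Ex]
        have hx' : x = u ∨ x = v := by simpa [hS] using hx
        rcases hx' with rfl | rfl
        · exact Or.inl ⟨heK.2, hex⟩
        · exact Or.inr ⟨heK.2, hex⟩
      constructor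
      · intro hu
        by_contra hv
        apply hne u huS
        ext y
        simp only [mem_inter, mem_singleton, hS, mem_insert]
        constructor
        · rintro ⟨hy, rfl | rfl⟩
          · rfl
          · exact absurd hy hv
        · rintro rfl; exact ⟨hu, Or.inl rfl⟩
      · intro hv
        by_contra hu
        apply hne v hvS
        ext y
        simp only [mem_inter, mem_singleton, hS, mem_insert]
        constructor
        · rintro ⟨hy, rfl | rfl⟩
          · exact absurd hy hu
          · rfl
        · rintro rfl; exact ⟨hv, Or.inr rfl⟩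
    rw [hout]
    congr 1
    have hHA : (H₀ ∪ symmDiff Y B) ∩ A = Y \ B := by
      ext e
      simp only [mem_inter, mem_union, mem_symmDiff, mem_sdiff]
      constructor
      · rintro ⟨h | h | h, hA'⟩
        · exact absurd (mem_union_left B hA') (disjoint_left.1 hH₀D h)
        · exact h
        · exact absurd h.1 (disjoint_left.1 hAB hA')
      · rintro ⟨hY', hB'⟩
        refine ⟨Or.inr (Or.inl ⟨hY', hB'⟩), ?_⟩
        have := hY hY'
        rw [hD, mem_union] at this
        exact this.resolve_right hB'
    have hHB : (H₀ ∪ symmDiff Y B) ∩ B = B \ Y := by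
      ext e
      simp only [mem_inter, mem_union, mem_symmDiff, mem_sdiff]
      constructor
      · rintro ⟨h | h | h, hB'⟩
        · exact absurd (mem_union_right A hB') (disjoint_left.1 hH₀D h)
        · exact absurd hB' h.2
        · exact h
      · rintro ⟨hB', hY'⟩
        exact ⟨Or.inr (Or.inr ⟨hB', hY'⟩), hB'⟩
    rw [hHA, hHB]
    have c1 := card_sdiff_add_card_inter Y B
    have c2 := card_sdiff_add_card_inter B Y
    rw [inter_comm] at c2
    omega
  · rintro ⟨H₀, Y⟩ hq ⟨H₁, Y'⟩ hq' heq
    simp only [mem_coe, mem_product, mem_powerset, mem_powersetCard] at hq hq'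
    simp only at heq
    have hd : ∀ (G Z : Finset (Finset (Fin n))), G ⊆ K \ D → Z ⊆ D →
        (G ∪ symmDiff Z B) \ D = G ∧ (G ∪ symmDiff Z B) ∩ D = symmDiff Z B := by
      intro G Z hG hZ
      have hGD : Disjoint G D := by
        rw [disjoint_left]
        intro e he heD
        exact (mem_sdiff.1 (hG he)).2 heD
      constructor
      · rw [union_sdiff_distrib, sdiff_eq_empty_iff_subset.2 (hsd Z hZ), union_empty]
        exact sdiff_eq_self_of_disjoint hGD
      · rw [union_inter_distrib_right, disjoint_iff_inter_eq_empty.1 hGD, empty_union]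
        exact inter_eq_left.2 (hsd Z hZ)
    have h0 := hd H₀ Y hq.1 hq.2.1
    have h1 := hd H₁ Y' hq'.1 hq'.2.1
    have e1 : H₀ = H₁ := by rw [← h0.1, heq, h1.1]
    have e2 : symmDiff Y B = symmDiff Y' B := by rw [← h0.2, heq, h1.2]
    rw [e1, symmDiff_left_injective B e2]

end Run7.h198
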