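import Pool.Agent.Run7.h198.Switching

/-! A positive fraction of 5-uniform hypergraphs is irregular: the first moment part. -/

set_option autoImplicit false

namespace Run7.h198

open Finset

variable {n k : ℕ}

lemma near_pair_count (hk : 1 ≤ k) (R : ℕ) (u v : Fin n) (huv : u ≠ v) :
    (((Om n k).filter (fun H => (u, v) ∈ near R H)).card : ℝ) ≤
      (2 * R + 1) * (2 ^ (n.choose k) * cc ((n - 2).choose (k - 1))) := by
  have hsub : (Om n k).filter (fun H => (u, v) ∈ near R H) ⊆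
      (range (2 * R + 1)).biUnion
        (fun c => (Om n k).filter (fun H => deg H u + R = deg H v + c)) := by
    intro H hH
    rw [mem_filter, mem_near] at hH
    rw [mem_biUnion]
    refine ⟨deg H u + R - deg H v, ?_, ?_⟩
    · rw [mem_range]; omega
    · rw [mem_filter]
      exact ⟨hH.1, by omega⟩
  have h1 : (((Om n k).filter (fun H => (u, v) ∈ near R H)).card : ℝ) ≤
      ∑ c ∈ range (2 * R + 1),
        (((Om n k).filter (fun H => deg H u + R = deg H v + c)).card : ℝ) := by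
    exact_mod_cast (card_le_card hsub).trans card_biUnion_le
  refine h1.trans ?_
  calc ∑ c ∈ range (2 * R + 1),
        (((Om n k).filter (fun H => deg H u + R = deg H v + c)).card : ℝ)
      ≤ ∑ _c ∈ range (2 * R + 1), (2 ^ (n.choose k) * cc ((n - 2).choose (k - 1))) :=
        sum_le_sum (fun c _ => one_pair_le_real hk u v huv R c)
    _ = _ := by rw [sum_const, card_range, nsmul_eq_mul]; push_cast; ring

lemma sum_near_le (hk : 1 ≤ k) (R : ℕ) :
    ∑ H ∈ Om n k, ((near R H).card : ℝ) ≤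
      (n : ℝ) ^ 2 * ((2 * R + 1) * (2 ^ (n.choose k) * cc ((n - 2).choose (k - 1)))) := by
  have h1 : ∀ H ∈ Om n k, ((near R H).card : ℝ) =
      ∑ p ∈ (univ : Finset (Fin n)).offDiag, if (p.1, p.2) ∈ near R H then (1 : ℝ) else 0 := by
    intro H _
    have : near R H = (univ : Finset (Fin n)).offDiag.filter (fun p => (p.1, p.2) ∈ near R H) := by
      ext p
      rw [mem_filter]
      constructor
      · intro h
        refine ⟨?_, h⟩
        rw [near, mem_filter] at h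
        exact h.1
      · exact fun h => h.2
    conv_lhs => rw [this, card_filter]
    push_cast
    rfl
  rw [sum_congr rfl h1, sum_comm]
  have h2 : ∀ p ∈ (univ : Finset (Fin n)).offDiag,
      (∑ H ∈ Om n k, if (p.1, p.2) ∈ near R H then (1 : ℝ) else 0) ≤
      (2 * R + 1) * (2 ^ (n.choose k) * cc ((n - 2).choose (k - 1))) := by
    intro p hp
    rw [mem_offDiag] at hp
    refine le_trans (le_of_eq ?_) (near_pair_count hk R p.1 p.2 hp.2.2)
    rw [card_filter]
    push_cast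
    rfl
  refine (sum_le_sum h2).trans ?_
  rw [sum_const, nsmul_eq_mul]
  apply mul_le_mul_of_nonneg_right
  · rw [offDiag_card, card_univ, Fintype.card_fin]
    have : n * n - n ≤ n ^ 2 := by rw [pow_two]; exact Nat.sub_le _ _
    exact_mod_cast this
  · have := cc_pos ((n - 2).choose (k - 1))
    positivity

lemma triple_count (hk : 1 ≤ k) (hn : 3 ≤ n) (R : ℕ) :
    (((Om n k).filter (fun H => ¬ noTriple R H)).card : ℝ) ≤
      (n : ℝ) ^ 3 * ((2 * R + 1) ^ 2 * (2 ^ (n.choose k) * bb ((n - 3).choose (k - 1)) ^ 2)) := by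
  classical
  let I : Finset ((Fin n × Fin n × Fin n) × (ℕ × ℕ)) :=
    (univ : Finset (Fin n × Fin n × Fin n)) ×ˢ (range (2 * R + 1) ×ˢ range (2 * R + 1))
  let F : ((Fin n × Fin n × Fin n) × (ℕ × ℕ)) → Finset (Finset (Finset (Fin n))) := fun i =>
    if i.1.1 ≠ i.1.2.1 ∧ i.1.1 ≠ i.1.2.2 ∧ i.1.2.1 ≠ i.1.2.2 then
      (Om n k).filter (fun H => deg H i.1.1 + R = deg H i.1.2.1 + i.2.1 ∧
        deg H i.1.1 + R = deg H i.1.2.2 + i.2.2) else ∅
  have hsub : (Om n k).filter (fun H => ¬ noTriple R H) ⊆ I.biUnion F := by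
    intro H hH
    rw [mem_filter, noTriple] at hH
    obtain ⟨hHO, hH⟩ := hH
    push Not at hH
    obtain ⟨u, v, w, huv, huw, hvw⟩ := hH
    rw [mem_near] at huv huw
    rw [mem_biUnion]
    refine ⟨((u, v, w), (deg H u + R - deg H v, deg H u + R - deg H w)), ?_, ?_⟩
    · simp only [I, mem_product, mem_univ, mem_range, true_and]
      omega
    · simp only [F]
      rw [if_pos ⟨huv.1, huw.1, hvw⟩, mem_filter]
      exact ⟨hHO, by omega, by omega⟩
  have hF : ∀ i ∈ I, ((F i).card : ℝ) ≤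
      2 ^ (n.choose k) * bb ((n - 3).choose (k - 1)) ^ 2 := by
    intro i _
    simp only [F]
    split_ifs with h
    · exact triple_le_real hk hn _ _ _ h.1 h.2.1 h.2.2 _ _ _ _
    · rw [card_empty, Nat.cast_zero]
      have := bb_pos ((n - 3).choose (k - 1))
      positivity
  have hI : (I.card : ℝ) = (n : ℝ) ^ 3 * (2 * R + 1) ^ 2 := by
    simp only [I, card_product, card_univ, Fintype.card_prod, Fintype.card_fin, card_range]
    push_cast
    ring
  have h1 : (((Om n k).filter (fun H => ¬ noTriple R H)).card : ℝ) ≤ ∑ i ∈ I, ((F i).card : ℝ) := by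
    exact_mod_cast (card_le_card hsub).trans card_biUnion_le
  refine h1.trans ((sum_le_sum hF).trans ?_)
  rw [sum_const, nsmul_eq_mul, hI]
  apply le_of_eq
  ring

/-- Markov inequality for counts -/
lemma markov (S : Finset (Finset (Finset (Fin n)))) (f : Finset (Finset (Fin n)) → ℕ) (a : ℕ) :
    ((S.filter (fun H => ¬ f H ≤ a)).card : ℝ) * (a + 1) ≤ ∑ H ∈ S, (f H : ℝ) := by
  calc ((S.filter (fun H => ¬ f H ≤ a)).card : ℝ) * (a + 1)
      = ∑ _H ∈ S.filter (fun H => ¬ f H ≤ a), ((a : ℝ) + 1) := by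
        rw [sum_const, nsmul_eq_mul]
    _ ≤ ∑ H ∈ S.filter (fun H => ¬ f H ≤ a), (f H : ℝ) := by
        apply sum_le_sum
        intro H hH
        rw [mem_filter] at hH
        have : a + 1 ≤ f H := by omega
        exact_mod_cast this
    _ ≤ ∑ H ∈ S, (f H : ℝ) := by
        apply sum_le_sum_of_subset_of_nonneg (filter_subset _ _)
        intro H _ _
        positivity

lemma good_large (hn : 1000000 ≤ n) :
    (2 : ℝ) ^ (n.choose 5) / 4 ≤ ((Good n 5 15 16 527).card : ℝ) := by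
  have hnr : (1000000 : ℝ) ≤ n := by exact_mod_cast hn
  set T : ℝ := 2 ^ (n.choose 5) with hT
  have hT0 : 0 < T := by positivity
  set b := cc ((n - 2).choose 4) with hb
  have hb0 : 0 < b := cc_pos _
  set c := bb ((n - 3).choose 4) with hc
  -- bound on b
  have hM : ((n : ℝ) - 5) ^ 4 / 24 ≤ ((n - 2).choose 4 : ℝ) := by
    have h := Nat.pow_le_choose (α := ℝ) 4 (n - 2)
    have e1 : ((n - 2 + 1 - 4 : ℕ) : ℝ) = (n : ℝ) - 5 := by
      rw [show n - 2 + 1 - 4 = n - 5 by omega, Nat.cast_sub (by omega)]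
      norm_num
    rw [e1] at h
    have e2 : ((Nat.factorial 4 : ℕ) : ℝ) = 24 := by norm_num [Nat.factorial]
    rw [e2] at h
    exact h
  have hM'' : ((n : ℝ) - 6) ^ 4 / 24 ≤ ((n - 3).choose 4 : ℝ) := by
    have h := Nat.pow_le_choose (α := ℝ) 4 (n - 3)
    have e1 : ((n - 3 + 1 - 4 : ℕ) : ℝ) = (n : ℝ) - 6 := by
      rw [show n - 3 + 1 - 4 = n - 6 by omega, Nat.cast_sub (by omega)]
      norm_num
    rw [e1] at h
    have e2 : ((Nat.factorial 4 : ℕ) : ℝ) = 24 := by norm_num [Nat.factorial]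
    rw [e2] at h
    exact h
  have hnb : (n : ℝ) ^ 2 * b ≤ 4 := by
    have h1 := cc_upper ((n - 2).choose 4)
    rw [← hb] at h1
    have h2 : ((n : ℝ) ^ 2 * b) ^ 2 ≤ 16 := by
      have h3 : (n : ℝ) ^ 4 ≤ 16 * (2 * ((n - 2).choose 4 : ℝ) + 1) := by
        have h4 : (n : ℝ) ^ 4 ≤ 4 / 3 * ((n : ℝ) - 5) ^ 4 := by
          have h5 : (n : ℝ) ^ 2 ≤ (23 / 20) * ((n : ℝ) - 5) ^ 2 := by nlinarith
          have h6 : 0 ≤ (n : ℝ) ^ 2 := sq_nonneg _
          calc (n : ℝ) ^ 4 = (n : ℝ) ^ 2 * (n : ℝ) ^ 2 := by ring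
            _ ≤ ((23 / 20) * ((n : ℝ) - 5) ^ 2) * ((23 / 20) * ((n : ℝ) - 5) ^ 2) := by
                apply mul_le_mul h5 h5 h6
                positivity
            _ ≤ 4 / 3 * ((n : ℝ) - 5) ^ 4 := by nlinarith [sq_nonneg (((n : ℝ) - 5) ^ 2)]
        linarith
      calc ((n : ℝ) ^ 2 * b) ^ 2 = (n : ℝ) ^ 4 * b ^ 2 := by ring
        _ ≤ (16 * (2 * ((n - 2).choose 4 : ℝ) + 1)) * b ^ 2 :=
            mul_le_mul_of_nonneg_right h3 (sq_nonneg _)
        _ = 16 * (b ^ 2 * (2 * ((n - 2).choose 4 : ℝ) + 1)) := by ring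
        _ ≤ 16 * 1 := mul_le_mul_of_nonneg_left h1 (by norm_num)
        _ = 16 := by norm_num
    have h7 : 0 ≤ (n : ℝ) ^ 2 * b := by positivity
    nlinarith
  have hnc : (n : ℝ) ^ 3 * (33 ^ 2 * c ^ 2) ≤ 1 / 4 := by
    have h1 := bb_upper ((n - 3).choose 4)
    rw [← hc] at h1
    have h3 : 4 * 33 ^ 2 * (n : ℝ) ^ 3 ≤ ((n - 3).choose 4 : ℝ) + 1 := by
      have h4 : (n : ℝ) ^ 4 / 2 ≤ ((n : ℝ) - 6) ^ 4 := by
        have h5 : (3 / 4) * (n : ℝ) ^ 2 ≤ ((n : ℝ) - 6) ^ 2 := by nlinarith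
        have h6 : 0 ≤ (3 / 4) * (n : ℝ) ^ 2 := by positivity
        calc (n : ℝ) ^ 4 / 2 ≤ ((3 / 4) * (n : ℝ) ^ 2) * ((3 / 4) * (n : ℝ) ^ 2) := by
              nlinarith [sq_nonneg ((n : ℝ) ^ 2)]
          _ ≤ ((n : ℝ) - 6) ^ 2 * ((n : ℝ) - 6) ^ 2 := by
              apply mul_le_mul h5 h5 h6
              positivity
          _ = ((n : ℝ) - 6) ^ 4 := by ring
      have h8 : 4 * 33 ^ 2 * (n : ℝ) ^ 3 ≤ (n : ℝ) ^ 4 / 2 / 24 := by
        have h9 : 0 ≤ (n : ℝ) ^ 3 := by positivity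
        nlinarith
      linarith
    have h10 : (4 * 33 ^ 2 * (n : ℝ) ^ 3) * c ^ 2 ≤ 1 := by
      calc (4 * 33 ^ 2 * (n : ℝ) ^ 3) * c ^ 2 ≤ (((n - 3).choose 4 : ℝ) + 1) * c ^ 2 :=
            mul_le_mul_of_nonneg_right h3 (sq_nonneg _)
        _ = c ^ 2 * (((n - 3).choose 4 : ℝ) + 1) := by ring
        _ ≤ 1 := h1
    linarith
  -- three bad events
  have m0 := markov (Om n 5) (fun H => (near 0 H).card) 15
  have m1 := markov (Om n 5) (fun H => (near 16 H).card) 527
  have s0 := sum_near_le (n := n) (k := 5) (by norm_num) 0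
  have s1 := sum_near_le (n := n) (k := 5) (by norm_num) 16
  have t0 := triple_count (n := n) (k := 5) (by norm_num) (by omega) 16
  norm_num at m0 m1 s0 s1 t0
  have e4 : (5 - 1 : ℕ) = 4 := rfl
  rw [← hT, ← hb] at s0 s1
  rw [← hT, ← hc] at t0
  have a0 : (((Om n 5).filter (fun H => ¬ (near 0 H).card ≤ 15)).card : ℝ) ≤ T / 4 := by
    have : (((Om n 5).filter (fun H => ¬ (near 0 H).card ≤ 15)).card : ℝ) * 16 ≤ 4 * T := by
      simp only [not_le]
      refine (m0.trans s0).trans ?_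
      calc (n : ℝ) ^ 2 * (T * b) = ((n : ℝ) ^ 2 * b) * T := by ring
        _ ≤ 4 * T := mul_le_mul_of_nonneg_right hnb hT0.le
    linarith
  have a1 : (((Om n 5).filter (fun H => ¬ (near 16 H).card ≤ 527)).card : ℝ) ≤ T / 4 := by
    have : (((Om n 5).filter (fun H => ¬ (near 16 H).card ≤ 527)).card : ℝ) * 528 ≤
        33 * 4 * T := by
      simp only [not_le]
      refine (m1.trans s1).trans ?_
      calc (n : ℝ) ^ 2 * (33 * (T * b)) = 33 * (((n : ℝ) ^ 2 * b) * T) := by ring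
        _ ≤ 33 * (4 * T) := by
            apply mul_le_mul_of_nonneg_left _ (by norm_num)
            exact mul_le_mul_of_nonneg_right hnb hT0.le
        _ = 33 * 4 * T := by ring
    linarith
  have a2 : (((Om n 5).filter (fun H => ¬ noTriple 16 H)).card : ℝ) ≤ T / 4 := by
    refine t0.trans ?_
    calc (n : ℝ) ^ 3 * (1089 * (T * c ^ 2)) = ((n : ℝ) ^ 3 * (33 ^ 2 * c ^ 2)) * T := by ring
      _ ≤ 1 / 4 * T := mul_le_mul_of_nonneg_right hnc hT0.le
      _ = T / 4 := by ring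
  -- union bound
  have hcov : Om n 5 ⊆ Good n 5 15 16 527 ∪ ((Om n 5).filter (fun H => ¬ (near 0 H).card ≤ 15) ∪
      ((Om n 5).filter (fun H => ¬ (near 16 H).card ≤ 527) ∪
        (Om n 5).filter (fun H => ¬ noTriple 16 H))) := by
    intro H hH
    simp only [mem_union, Good, mem_filter, hH, true_and]
    tauto
  have hcard : (2 : ℝ) ^ (n.choose 5) ≤ ((Good n 5 15 16 527).card : ℝ) +
      ((((Om n 5).filter (fun H => ¬ (near 0 H).card ≤ 15)).card : ℝ) +
      ((((Om n 5).filter (fun H => ¬ (near 16 H).card ≤ 527)).card : ℝ) +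
        (((Om n 5).filter (fun H => ¬ noTriple 16 H)).card : ℝ))) := by
    have h1 := card_le_card hcov
    have h2 := (h1.trans (card_union_le _ _)).trans (Nat.add_le_add_left
      ((card_union_le _ _).trans (Nat.add_le_add_left (card_union_le _ _) _)) _)
    rw [card_Om] at h2
    exact_mod_cast h2
  rw [← hT] at hcard
  linarith

lemma choose_compare (hn : 1000000 ≤ n) :
    (n - 1).choose 4 ≤ 2 * (n - 527).choose 4 := by
  have hnr : (1000000 : ℝ) ≤ n := by exact_mod_cast hn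
  have h1 := Nat.choose_le_pow_div (α := ℝ) 4 (n - 1)
  have h2 := Nat.pow_le_choose (α := ℝ) 4 (n - 527)
  have e1 : ((n - 527 + 1 - 4 : ℕ) : ℝ) = (n : ℝ) - 530 := by
    rw [show n - 527 + 1 - 4 = n - 530 by omega, Nat.cast_sub (by omega)]
    norm_num
  have e2 : ((n - 1 : ℕ) : ℝ) = (n : ℝ) - 1 := by
    rw [Nat.cast_sub (by omega)]; norm_num
  have e3 : ((Nat.factorial 4 : ℕ) : ℝ) = 24 := by norm_num [Nat.factorial]
  rw [e1, e3] at h2
  rw [e2, e3] at h1
  have h3 : ((n : ℝ) - 1) ^ 4 ≤ 2 * ((n : ℝ) - 530) ^ 4 := by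
    have h5 : ((n : ℝ) - 1) ^ 2 ≤ (7 / 5) * ((n : ℝ) - 530) ^ 2 := by nlinarith
    have h6 : 0 ≤ ((n : ℝ) - 1) ^ 2 := sq_nonneg _
    calc ((n : ℝ) - 1) ^ 4 = ((n : ℝ) - 1) ^ 2 * ((n : ℝ) - 1) ^ 2 := by ring
      _ ≤ ((7 / 5) * ((n : ℝ) - 530) ^ 2) * ((7 / 5) * ((n : ℝ) - 530) ^ 2) := by
          apply mul_le_mul h5 h5 h6
          exact mul_nonneg (by norm_num) (sq_nonneg _)
      _ ≤ 2 * ((n : ℝ) - 530) ^ 4 := by nlinarith [sq_nonneg (((n : ℝ) - 530) ^ 2)]
  have h4 : ((n - 1).choose 4 : ℝ) ≤ 2 * ((n - 527).choose 4 : ℝ) := by linarith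
  exact_mod_cast h4

theorem irregular_five :
    ∃ c : ℝ, 0 < c ∧ ∃ N : ℕ, ∀ n : ℕ, N ≤ n →
      c ≤ (((Om n 5).filter (fun H => Function.Injective
        (fun v : Fin n => deg H v))).card : ℝ) / (2 : ℝ) ^ (n.choose 5) := by
  have hCpos : 0 < CC 527 15 := by
    have : ∀ j, 0 < CC 527 j := by
      intro j
      cases j with
      | zero => simp [CC]
      | succ j => simp only [CC]; omega
    exact this 15
  have hCr : (0 : ℝ) < (CC 527 15 : ℝ) := by exact_mod_cast hCpos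
  refine ⟨1 / (4 * (CC 527 15 : ℝ)), by positivity, 1000000, fun n hn => ?_⟩
  have h1 := good_large hn
  have hpos : 0 < (n - 527).choose 4 := Nat.choose_pos (by omega)
  have h2 := good_le_irr (n := n) (k := 5) (by norm_num) 527 (choose_compare hn) hpos 15
  have h3 : ((Good n 5 15 16 527).card : ℝ) ≤ (CC 527 15 : ℝ) * ((Irr n 5).card : ℝ) := by
    exact_mod_cast h2
  have h4 : (Irr n 5) = (Om n 5).filter (fun H => Function.Injective
        (fun v : Fin n => deg H v)) := by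
    rw [Irr]
    apply filter_congr
    intro H _
    constructor
    · intro h v w hvw
      by_contra hne
      have : (v, w) ∈ near 0 H := by
        rw [mem_near]
        simp only at hvw
        exact ⟨hne, by omega, by omega⟩
      rw [h] at this
      simp at this
    · intro h
      rw [eq_empty_iff_forall_notMem]
      rintro ⟨v, w⟩ hvw
      rw [mem_near] at hvw
      exact hvw.1 (h (by simp only; omega))
  rw [← h4]
  rw [le_div_iff₀ (by positivity), div_mul_eq_mul_div, one_mul, div_le_iff₀ (by positivity)]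
  linarith

end Run7.h198
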