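import Pool.Agent.Run7.h198.SecondMoment

/-! Almost every 3- or 4-uniform hypergraph has two vertices of equal degree. -/

set_option autoImplicit false

namespace Run7.h198

open Finset Filter

lemma real_final (m M M' M'' a b c Z T : ℝ) (hm : 24 ≤ m) (hT : 0 < T)
    (hM' : 0 < M') (hM'' : 0 < M'')
    (h1 : M * ((m - 2) * (m - 1)) ≤ M' * ((m + 1) * (m + 2))) (h2 : M ≤ 2 * M'')
    (h3 : M ≤ (m + 3) ^ 3) (ha : M' * a ≤ M * b ^ 2) (hb : 1 ≤ 4 * M * b ^ 2)
    (hc : c * (M'' + 1) ≤ 1) (hb0 : 0 < b) (hc0 : 0 ≤ c)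
    (hZ : Z * ((m + 4) * (m + 3) * b ^ 2) ≤
      T * ((m + 4) ^ 2 * a + 2 * b + 4 * (m + 4) * c - (m + 4) * (m + 3) * b ^ 2)) :
    Z / T ≤ 8 / m + 4 / Real.sqrt (m + 3) + 32 / (m + 3) := by
  have hm0 : 0 < m := by linarith
  set s := Real.sqrt (m + 3) with hs
  have hs0 : 0 < s := Real.sqrt_pos.2 (by linarith)
  have hs2 : s ^ 2 = m + 3 := Real.sq_sqrt (by linarith)
  have hb2 : 0 < b ^ 2 := by positivity
  -- step A
  have hA : (m + 4) ^ 2 * a ≤ (m + 4) * (m + 3) * b ^ 2 * (1 + 8 / m) := by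
    have e1 : M' * (a * ((m - 2) * (m - 1))) ≤ M' * ((m + 1) * (m + 2) * b ^ 2) := by
      have hpos : 0 ≤ (m - 2) * (m - 1) := by nlinarith
      calc M' * (a * ((m - 2) * (m - 1))) = (M' * a) * ((m - 2) * (m - 1)) := by ring
        _ ≤ (M * b ^ 2) * ((m - 2) * (m - 1)) := mul_le_mul_of_nonneg_right ha hpos
        _ = (M * ((m - 2) * (m - 1))) * b ^ 2 := by ring
        _ ≤ (M' * ((m + 1) * (m + 2))) * b ^ 2 := mul_le_mul_of_nonneg_right h1 hb2.le
        _ = M' * ((m + 1) * (m + 2) * b ^ 2) := by ring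
    have e2 : a * ((m - 2) * (m - 1)) ≤ (m + 1) * (m + 2) * b ^ 2 := le_of_mul_le_mul_left e1 hM'
    have hq : 0 < (m - 2) * (m - 1) * m := by
      have : 0 < (m - 2) := by linarith
      have : 0 < (m - 1) := by linarith
      positivity
    have e3 : ((m + 4) * a) * ((m - 2) * (m - 1) * m) ≤
        ((m + 3) * b ^ 2 * (1 + 8 / m)) * ((m - 2) * (m - 1) * m) := by
      have : ((m + 3) * b ^ 2 * (1 + 8 / m)) * ((m - 2) * (m - 1) * m) =
          (m + 3) * b ^ 2 * (m + 8) * ((m - 2) * (m - 1)) := by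
        field_simp
      rw [this]
      have e4 : ((m + 4) * a) * ((m - 2) * (m - 1) * m) ≤
          (m + 4) * m * ((m + 1) * (m + 2) * b ^ 2) := by
        have : ((m + 4) * a) * ((m - 2) * (m - 1) * m) =
          (m + 4) * m * (a * ((m - 2) * (m - 1))) := by ring
        rw [this]
        exact mul_le_mul_of_nonneg_left e2 (by positivity)
      refine e4.trans ?_
      have e5 : (m + 4) * m * ((m + 1) * (m + 2)) ≤ (m + 3) * (m + 8) * ((m - 2) * (m - 1)) := by
        nlinarith [mul_nonneg (mul_nonneg hm0.le hm0.le) (sub_nonneg.2 hm), mul_nonneg hm0.le (sub_nonneg.2 hm)]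
      nlinarith
    have e6 := le_of_mul_le_mul_right e3 hq
    have hm4 : 0 < m + 4 := by linarith
    calc (m + 4) ^ 2 * a = (m + 4) * ((m + 4) * a) := by ring
      _ ≤ (m + 4) * ((m + 3) * b ^ 2 * (1 + 8 / m)) := mul_le_mul_of_nonneg_left e6 hm4.le
      _ = _ := by ring
  -- step B
  have hbs : 1 ≤ 2 * s ^ 3 * b := by
    have h4 : 1 ≤ (2 * s ^ 3 * b) ^ 2 := by
      have : (2 * s ^ 3 * b) ^ 2 = 4 * (s ^ 2) ^ 3 * b ^ 2 := by ring
      rw [this, hs2]
      nlinarith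
    have h5 : 0 ≤ 2 * s ^ 3 * b := by positivity
    nlinarith
  have hB : 2 * b ≤ (m + 4) * (m + 3) * b ^ 2 * (4 / s) := by
    have e1 : (m + 4) * (m + 3) * b ^ 2 * (4 / s) = b * ((m + 4) * s * 4 * b) := by
      rw [← hs2]; field_simp
    rw [e1, mul_comm 2 b]
    apply mul_le_mul_of_nonneg_left _ hb0.le
    have e2 : 2 * s ^ 3 * b ≤ 2 * ((m + 4) * s * b) := by
      have : s ^ 3 = (m + 3) * s := by rw [← hs2]; ring
      rw [this]
      have : 0 < s * b := by positivity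
      nlinarith
    linarith
  -- step C
  have hC : 4 * (m + 4) * c ≤ (m + 4) * (m + 3) * b ^ 2 * (32 / (m + 3)) := by
    have e1 : (m + 4) * (m + 3) * b ^ 2 * (32 / (m + 3)) = 4 * (m + 4) * (8 * b ^ 2) := by
      field_simp
      ring
    rw [e1]
    apply mul_le_mul_of_nonneg_left _ (by linarith)
    have e2 : c * M'' ≤ 1 := by nlinarith
    have e3 : 1 ≤ 8 * b ^ 2 * M'' := by nlinarith
    have e4 : c * M'' ≤ 8 * b ^ 2 * M'' := e2.trans e3
    exact le_of_mul_le_mul_right e4 hM''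
  set W := (m + 4) * (m + 3) * b ^ 2 with hW
  have hW0 : 0 < W := by rw [hW]; positivity
  have hfin : Z * W ≤ T * (W * (8 / m + 4 / s + 32 / (m + 3))) := by
    refine hZ.trans (mul_le_mul_of_nonneg_left ?_ hT.le)
    have : W * (8 / m + 4 / s + 32 / (m + 3)) =
      W * (1 + 8 / m) + W * (4 / s) + W * (32 / (m + 3)) - W := by ring
    rw [this]
    linarith
  have hfin' : Z * W ≤ ((8 / m + 4 / s + 32 / (m + 3)) * T) * W := by
    refine hfin.trans (le_of_eq ?_); ring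
  rw [div_le_iff₀ hT]
  exact le_of_mul_le_mul_right hfin' hW0

lemma choose_ratio (m j : ℕ) (hj : j ≤ m + 1) :
    (Nat.choose m j : ℝ) * (m + 1) = (Nat.choose (m + 1) j : ℝ) * ((m : ℝ) + 1 - j) := by
  have h := Nat.choose_mul_succ_eq m j
  have h' : ((Nat.choose m j * (m + 1) : ℕ) : ℝ) = ((Nat.choose (m + 1) j * (m + 1 - j) : ℕ) : ℝ) := by
    rw [h]
  push_cast [Nat.cast_sub hj] at h'
  exact h'

lemma irregular_small (k : ℕ) (hk1 : 3 ≤ k) (hk2 : k ≤ 4) (m : ℕ) (hm : 24 ≤ m) :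
    (((Om (m + 4) k).filter (fun H => eqPairs H = ∅)).card : ℝ) / 2 ^ ((m + 4).choose k) ≤
      8 / m + 4 / Real.sqrt (m + 3) + 32 / (m + 3) := by
  obtain ⟨j, rfl⟩ : ∃ j, k = j + 1 := ⟨k - 1, by omega⟩
  have hj1 : 2 ≤ j := by omega
  have hj2 : j ≤ 3 := by omega
  have hb := irregular_bound (n := m + 4) (k := j + 1) (by omega) (by omega)
  rw [show m + 4 - 2 = m + 2 by omega, show m + 4 - 4 = m by omega,
    show m + 4 - 3 = m + 1 by omega, Nat.add_sub_cancel] at hb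
  push_cast at hb
  have hm' : (24 : ℝ) ≤ m := by exact_mod_cast hm
  have hjr : (j : ℝ) ≤ 3 := by exact_mod_cast hj2
  have hjr0 : (2 : ℝ) ≤ j := by exact_mod_cast hj1
  have hMpos : (0 : ℝ) < (Nat.choose (m + 2) j : ℝ) := by
    exact_mod_cast Nat.choose_pos (by omega)
  have hMpos' : (0 : ℝ) < (Nat.choose m j : ℝ) := by
    exact_mod_cast Nat.choose_pos (by omega)
  have hMpos'' : (0 : ℝ) < (Nat.choose (m + 1) j : ℝ) := by
    exact_mod_cast Nat.choose_pos (by omega)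
  have r1 := choose_ratio m j (by omega)
  have r2 := choose_ratio (m + 1) j (by omega)
  push_cast at r2
  have r2' : (Nat.choose (m + 1) j : ℝ) * ((m : ℝ) + 2) =
      (Nat.choose (m + 2) j : ℝ) * ((m : ℝ) + 2 - j) := by
    have e : (Nat.choose (m + 1 + 1) j : ℝ) = (Nat.choose (m + 2) j : ℝ) := by norm_num
    rw [e] at r2
    linarith
  apply real_final (m := (m : ℝ)) (M := (Nat.choose (m + 2) j : ℝ)) (M' := (Nat.choose m j : ℝ))
    (M'' := (Nat.choose (m + 1) j : ℝ)) (a := cc (Nat.choose m j) ^ 2)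
    (b := cc (Nat.choose (m + 2) j)) (c := bb (Nat.choose (m + 1) j) ^ 2) (Z := _) (T := _)
    (hm := hm') (hT := by positivity) (hM' := hMpos') (hM'' := hMpos'')
  · -- h1
    have e1 : (Nat.choose m j : ℝ) * (((m : ℝ) + 1) * (m + 2)) =
        (Nat.choose (m + 2) j : ℝ) * (((m : ℝ) + 1 - j) * ((m : ℝ) + 2 - j)) := by
      calc (Nat.choose m j : ℝ) * (((m : ℝ) + 1) * (m + 2)) =
          ((Nat.choose m j : ℝ) * ((m : ℝ) + 1)) * (m + 2) := by ring
        _ = ((Nat.choose (m + 1) j : ℝ) * ((m : ℝ) + 1 - j)) * (m + 2) := by rw [r1]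
        _ = ((Nat.choose (m + 1) j : ℝ) * ((m : ℝ) + 2)) * ((m : ℝ) + 1 - j) := by ring
        _ = _ := by rw [r2']; ring
    rw [e1]
    apply mul_le_mul_of_nonneg_left _ hMpos.le
    nlinarith
  · -- h2
    have e1 : (Nat.choose (m + 2) j : ℝ) * ((m : ℝ) + 2 - j) ≤
        2 * (Nat.choose (m + 1) j : ℝ) * ((m : ℝ) + 2 - j) := by
      rw [← r2']
      nlinarith
    exact le_of_mul_le_mul_right e1 (by linarith)
  · -- h3
    have e1 : Nat.choose (m + 2) j ≤ (m + 2) ^ j := Nat.choose_le_pow _ _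
    have e2 : (m + 2) ^ j ≤ (m + 3) ^ 3 :=
      (Nat.pow_le_pow_right (by omega) hj2).trans (Nat.pow_le_pow_left (by omega) 3)
    exact_mod_cast e1.trans e2
  · exact cc_mono (Nat.choose_le_choose j (by omega))
  · exact cc_lower (Nat.choose_pos (by omega))
  · exact bb_upper _
  · exact cc_pos _
  · exact sq_nonneg _
  · refine le_trans (le_of_eq ?_) (hb.trans (le_of_eq ?_)) <;> ring

lemma tendsto_bound :
    Tendsto (fun m : ℕ => 8 / (m : ℝ) + 4 / Real.sqrt (m + 3) + 32 / ((m : ℝ) + 3)) atTop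
      (nhds 0) := by
  have h1 : Tendsto (fun m : ℕ => 8 / (m : ℝ)) atTop (nhds 0) :=
    tendsto_const_div_atTop_nhds_zero_nat 8
  have h2 : Tendsto (fun m : ℕ => (m : ℝ) + 3) atTop atTop :=
    tendsto_atTop_add_const_right _ _ tendsto_natCast_atTop_atTop
  have h3 : Tendsto (fun m : ℕ => 32 / ((m : ℝ) + 3)) atTop (nhds 0) :=
    h2.const_div_atTop 32
  have h4 : Tendsto (fun m : ℕ => 4 / Real.sqrt ((m : ℝ) + 3)) atTop (nhds 0) :=
    (Real.tendsto_sqrt_atTop.comp h2).const_div_atTop 4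
  simpa using (h1.add h4).add h3

/-- The fraction of irregular `k`-uniform hypergraphs tends to zero, `k = 3, 4`. -/
lemma tendsto_irregular (k : ℕ) (hk1 : 3 ≤ k) (hk2 : k ≤ 4) :
    Tendsto (fun n : ℕ => (((Om n k).filter (fun H => eqPairs H = ∅)).card : ℝ) /
      2 ^ (n.choose k)) atTop (nhds 0) := by
  rw [← tendsto_add_atTop_iff_nat 4]
  refine squeeze_zero' (Eventually.of_forall fun m => by positivity) ?_ tendsto_bound
  filter_upwards [eventually_ge_atTop 24] with m hm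
  exact irregular_small k hk1 hk2 m hm

theorem tendsto_repeated (k : ℕ) (hk1 : 3 ≤ k) (hk2 : k ≤ 4) :
    Tendsto (fun n : ℕ =>
      (((Om n k).filter (fun H => ∃ v w : Fin n, v ≠ w ∧ deg H v = deg H w)).card : ℝ) /
      ((Om n k).card : ℝ)) atTop (nhds 1) := by
  have h := (tendsto_irregular k hk1 hk2).const_sub 1
  rw [sub_zero] at h
  refine h.congr (fun n => ?_)
  have hsplit := card_filter_add_card_filter_not (s := Om n k)
    (fun H => ∃ v w : Fin n, v ≠ w ∧ deg H v = deg H w)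
  have heq : (Om n k).filter (fun H => ¬ ∃ v w : Fin n, v ≠ w ∧ deg H v = deg H w) =
      (Om n k).filter (fun H => eqPairs H = ∅) := by
    apply filter_congr
    intro H _
    rw [eqPairs, filter_eq_empty_iff]
    constructor
    · intro hne p hp hpe
      rw [mem_offDiag] at hp
      exact hne ⟨p.1, p.2, hp.2.2, hpe⟩
    · rintro hall ⟨v, w, hvw, hd⟩
      exact hall (x := (v, w)) (by simp [hvw]) hd
  rw [heq] at hsplit
  have hc : ((Om n k).card : ℝ) = 2 ^ (n.choose k) := by rw [card_Om]; norm_cast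
  have hT : (0 : ℝ) < 2 ^ (n.choose k) := by positivity
  have hsplit' : (((Om n k).filter (fun H => ∃ v w : Fin n, v ≠ w ∧ deg H v = deg H w)).card : ℝ) +
      (((Om n k).filter (fun H => eqPairs H = ∅)).card : ℝ) = 2 ^ (n.choose k) := by
    rw [← hc]; exact_mod_cast hsplit
  rw [hc]
  field_simp
  linarith

end Run7.h198
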