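import Mathlib

/-!
# Breadth first search trees and mixed resolving sets: basic lemmas
-/

set_option autoImplicit false

namespace Run7.h198.Mix

open SimpleGraph Relation

variable {V : Type*} {G : SimpleGraph V}

theorem exists_next (hc : G.Connected) {s w : V} (h : s ≠ w) :
    ∃ s', G.Adj s s' ∧ G.dist s' w + 1 = G.dist s w := by
  obtain ⟨p, hp⟩ := hc.exists_walk_length_eq_dist s w
  cases p with
  | nil => exact absurd rfl h
  | @cons _ s' _ hadj q =>
    refine ⟨s', hadj, ?_⟩
    rw [Walk.length_cons] at hp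
    have h1 : G.dist s' w ≤ q.length := dist_le q
    have h2 : G.dist s w ≤ G.dist s s' + G.dist s' w := hc.dist_triangle
    have h3 : G.dist s s' = 1 := dist_eq_one_iff_adj.2 hadj
    omega

theorem adj_dist (hc : G.Connected) {u u' : V} (h : G.Adj u u') (s : V) :
    G.dist s u ≤ G.dist s u' + 1 := by
  have h2 : G.dist s u ≤ G.dist s u' + G.dist u' u := hc.dist_triangle
  have h3 : G.dist u' u = 1 := dist_eq_one_iff_adj.2 h.symm
  omega

theorem pos_of_ne (hc : G.Connected) {u v : V} (h : u ≠ v) : 0 < G.dist u v :=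
  hc.pos_dist_of_ne h

theorem eq_of_dist (hc : G.Connected) {u v : V} (h : G.dist u v = 0) : u = v :=
  hc.dist_eq_zero_iff.1 h

/-- a breadth first search tree with root `r`, given by its parent function -/
structure BFS (G : SimpleGraph V) (r : V) where
  par : V → V
  adj : ∀ v, v ≠ r → G.Adj v (par v)
  depth : ∀ v, v ≠ r → G.dist r (par v) + 1 = G.dist r v
  root : par r = r

theorem exists_bfs (hc : G.Connected) (r : V) : Nonempty (BFS G r) := by
  classical
  have h : ∀ v, ∃ p, (v = r → p = r) ∧ (v ≠ r → G.Adj v p ∧ G.dist r p + 1 = G.dist r v) := by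
    intro v
    by_cases hv : v = r
    · exact ⟨r, fun _ => rfl, fun h => absurd hv h⟩
    · obtain ⟨s, h1, h2⟩ := exists_next hc hv
      refine ⟨s, fun h => absurd h hv, fun _ => ⟨h1, ?_⟩⟩
      rw [G.dist_comm (u := r) (v := s), G.dist_comm (u := r) (v := v)]
      exact h2
  choose p h1 h2 using h
  exact ⟨⟨p, fun v hv => (h2 v hv).1, fun v hv => (h2 v hv).2, h1 r rfl⟩⟩

namespace BFS

variable {r : V} (T : BFS G r)

/-- `w` is a child of `u` -/
def C (u w : V) : Prop := w ≠ r ∧ T.par w = u

/-- `w` is a descendant of `v` (or equal to it) -/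
def Sub (v w : V) : Prop := ReflTransGen T.C v w

/-- `uv` is an edge of the graph which is not in the tree -/
def NT (u v : V) : Prop := G.Adj u v ∧ T.par u ≠ v ∧ T.par v ≠ u

/-- `u` is an end of an edge which is not in the tree -/
def N (u : V) : Prop := ∃ v, T.NT u v

variable {T}

theorem NT.symm {u v : V} (h : T.NT u v) : T.NT v u := ⟨h.1.symm, h.2.2, h.2.1⟩

theorem Sub.refl (v : V) : T.Sub v v := ReflTransGen.refl

theorem sub_dist (hc : G.Connected) {v w : V} (h : T.Sub v w) :
    G.dist r v + G.dist v w = G.dist r w := by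
  induction h with
  | refl => simp
  | @tail b c h1 h2 ih =>
    have h3 := T.depth c h2.1
    have h4 := T.adj c h2.1
    rw [h2.2] at h3 h4
    have h5 := adj_dist hc h4 v
    have h6 : G.dist r c ≤ G.dist r v + G.dist v c := hc.dist_triangle
    omega

theorem sub_unique (hc : G.Connected) {x y w : V} (hx : T.Sub x w) (hy : T.Sub y w)
    (hd : G.dist r x = G.dist r y) : x = y := by
  induction hx with
  | refl =>
    have := sub_dist hc hy
    have h0 : G.dist y x = 0 := by omega
    exact (eq_of_dist hc h0).symm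
  | @tail b c h1 h2 ih =>
    have h3 := T.depth c h2.1
    rw [h2.2] at h3
    rcases ReflTransGen.cases_tail hy with h | ⟨d, h4, h5⟩
    · exfalso
      have := sub_dist hc h1
      rw [← h] at hd
      omega
    · apply ih
      have : d = b := by rw [← h5.2, ← h2.2]
      rw [← this]
      exact h4

theorem boundary {v u u' : V} (hu : T.Sub v u) (hu' : ¬ T.Sub v u')
    (hadj : G.Adj u u') : (u = v ∧ u' = T.par v ∧ v ≠ r) ∨ T.NT u u' := by
  by_cases h1 : T.par u = u'
  · left
    have hur : u ≠ r := by
      intro h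
      rw [h, T.root] at h1
      rw [h, h1] at hadj
      exact hadj.ne rfl
    rcases ReflTransGen.cases_tail hu with h | ⟨d, h4, h5⟩
    · rw [h] at h1 hur
      exact ⟨h, h1.symm, hur⟩
    · exfalso
      apply hu'
      rw [← h1, h5.2]
      exact h4
  · right
    refine ⟨hadj, h1, fun h2 => hu' ?_⟩
    have hur : u' ≠ r := by
      intro h
      rw [h, T.root] at h2
      rw [h, h2] at hadj
      exact hadj.ne rfl
    exact ReflTransGen.tail hu ⟨hur, h2⟩

theorem exists_leaf [Finite V] (hc : G.Connected) (hmd : ∀ z w : V, ∃ u, u ≠ w ∧ G.Adj z u)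
    (v : V) : ∃ z, T.Sub v z ∧ T.N z := by
  obtain ⟨z, hz, hmax⟩ := Set.exists_max_image {z | T.Sub v z} (fun z => G.dist r z)
    (Set.toFinite _) ⟨v, Sub.refl v⟩
  obtain ⟨u, h1, h2⟩ := hmd z (T.par z)
  refine ⟨z, hz, u, h2, fun h => h1 h.symm, fun h => ?_⟩
  have hur : u ≠ r := by
    intro h3
    rw [h3, T.root] at h
    rw [h3, h] at h2
    exact h2.ne rfl
  have h4 : T.Sub v u := ReflTransGen.tail hz ⟨hur, h⟩
  have h5 := hmax u h4
  have h6 := T.depth u hur
  rw [h] at h6
  omega

theorem lemK (hc : G.Connected) : ∀ (n : ℕ) (x y s : V), x ≠ y → G.dist r x = G.dist r y →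
    T.Sub x s → G.dist y s = n → G.dist r y + n = G.dist r s →
    ∃ a b, T.NT a b ∧ T.Sub y a ∧ G.dist r b = G.dist r a + 1 ∧
      G.dist r b + G.dist b s = G.dist r s := by
  intro n
  induction n with
  | zero =>
    intro x y s hne hd hs h0 _
    have := eq_of_dist hc h0
    subst this
    exact absurd (sub_unique hc hs (Sub.refl y) hd) hne
  | succ n ih =>
    intro x y s hne hd hs h0 h1
    have hys : y ≠ s := by
      intro h
      rw [h] at h0
      simp at h0
    obtain ⟨y1, hadj, h2⟩ := exists_next hc hys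
    have h3 : G.dist r y1 ≤ G.dist r y + 1 := adj_dist hc hadj.symm r
    have h4 : G.dist r s ≤ G.dist r y1 + G.dist y1 s := hc.dist_triangle
    have h5 : G.dist r y1 = G.dist r y + 1 := by omega
    by_cases hp : T.par y1 = y
    · have hy1 : y1 ≠ r := by
        intro h
        rw [h] at h5
        simp at h5
      rcases ReflTransGen.cases_head hs with h | ⟨x1, h6, h7⟩
      · exfalso
        rw [h] at hd
        omega
      · have h8 := T.depth x1 h6.1
        rw [h6.2] at h8
        have hne1 : x1 ≠ y1 := by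
          intro h
          rw [h] at h6
          exact hne (h6.2.symm.trans hp)
        obtain ⟨a, b, g1, g2, g3, g4⟩ := ih x1 y1 s hne1 (by omega) h7 (by omega) (by omega)
        exact ⟨a, b, g1, ReflTransGen.head ⟨hy1, hp⟩ g2, g3, g4⟩
    · refine ⟨y, y1, ⟨hadj, fun h => ?_, hp⟩, Sub.refl y, h5, by omega⟩
      by_cases hyr : y = r
      · rw [hyr, T.root] at h
        rw [hyr, h] at hadj
        exact hadj.ne rfl
      · have := T.depth y hyr
        rw [h] at this
        omega

end BFS

theorem cut (hc : G.Connected) {U : Set V} {x x1 y y1 : V}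
    (hb : ∀ u ∈ U, ∀ u' ∉ U, G.Adj u u' → (u = x ∧ u' = x1) ∨ (u = y ∧ u' = y1)) {w : V}
    (hw : w ∈ U) : ∀ (n : ℕ) (s : V), s ∉ U → G.dist s w = n →
    G.dist s x1 + 1 + G.dist x w ≤ n ∨ G.dist s y1 + 1 + G.dist y w ≤ n := by
  intro n
  induction n with
  | zero =>
    intro s hs h0
    have := eq_of_dist hc h0
    subst this
    exact absurd hw hs
  | succ n ih =>
    intro s hs h0
    have hsw : s ≠ w := by
      intro h
      rw [h] at h0
      simp at h0
    obtain ⟨s', hadj, h1⟩ := exists_next hc hsw
    by_cases hs' : s' ∈ U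
    · rcases hb s' hs' s hs hadj.symm with ⟨h2, h3⟩ | ⟨h2, h3⟩
      · left
        rw [h3, ← h2]
        simp
        omega
      · right
        rw [h3, ← h2]
        simp
        omega
    · have h2 := ih s' hs' (by omega)
      have h3 := adj_dist hc hadj x1
      have h4 := adj_dist hc hadj y1
      rw [G.dist_comm (u := x1) (v := s), G.dist_comm (u := x1) (v := s')] at h3
      rw [G.dist_comm (u := y1) (v := s), G.dist_comm (u := y1) (v := s')] at h4
      omega

end Run7.h198.Mix
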