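import Pool.Agent.Run7.h198.MixBase

/-!
# The case in which the edges outside the tree form a matching
-/

set_option autoImplicit false

namespace Run7.h198.Mix

open SimpleGraph Relation

variable {V : Type*} {G : SimpleGraph V}

/-- no vertex `m` separates a nonempty set `U` from the other vertices -/
def NoCut (G : SimpleGraph V) : Prop :=
  ∀ (m : V) (U : Set V), m ∉ U → U.Nonempty → (∃ z, z ∉ U ∧ z ≠ m) →
    ∃ u ∈ U, ∃ u' ∉ U, u' ≠ m ∧ G.Adj u u'

namespace BFS

variable {r : V} {T : BFS G r} {a b : V}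

/-- `ab` is a deepest edge outside the tree, `b` has the largest depth, the edges outside the tree
form a matching with at least two members -/
structure Deep (T : BFS G r) (a b : V) : Prop where
  nt : T.NT a b
  mat : ∀ u v v', T.NT u v → T.NT u v' → v = v'
  max : ∀ v, G.dist r v ≤ G.dist r b
  other : ∃ u, T.N u ∧ u ≠ a ∧ u ≠ b

/-- the root and the ends of the edges outside the tree other than `ab` -/
def Sp (T : BFS G r) (a b s : V) : Prop := s = r ∨ (T.N s ∧ s ≠ a ∧ s ≠ b)

theorem key (hc : G.Connected) (D : Deep T a b) {x y z : V} (hne : x ≠ y)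
    (hd : G.dist r x = G.dist r y) (hz : T.Sub x z) (hza : z ≠ a) (hzb : z ≠ b)
    (hmin : ∀ z', T.Sub y z' → T.N z' → z' ≠ a → z' ≠ b → G.dist r z ≤ G.dist r z')
    (heq : G.dist y z = G.dist x z) : False := by
  have h1 := sub_dist hc hz
  obtain ⟨a1, b1, g1, g2, g3, g4⟩ := lemK hc (G.dist y z) x y z hne hd hz rfl (by omega)
  by_cases ha : a1 = a
  · subst ha
    have := D.mat _ _ _ g1 D.nt
    subst this
    have h2 := D.max z
    have h3 : G.dist b1 z = 0 := by omega
    exact hzb (eq_of_dist hc h3).symm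
  · by_cases hb : a1 = b
    · subst hb
      have := D.max b1
      omega
    · have := hmin a1 g2 ⟨b1, g1⟩ ha hb
      omega

theorem legs (hc : G.Connected) (h2 : NoCut G) (D : Deep T a b)
    (hleaf : ∀ v, ∃ z, T.Sub v z ∧ T.N z) {x y : V} (hne : x ≠ y)
    (hd : G.dist r x = G.dist r y)
    (hN : ∀ z, (T.Sub x z ∨ T.Sub y z) → T.N z → z = a ∨ z = b) :
    T.par x ≠ T.par y ∧ x ≠ r ∧ y ≠ r ∧
    (∀ s, Sp T a b s → ¬ (T.Sub x s ∨ T.Sub y s)) ∧
    (∀ s w, (T.Sub x w ∨ T.Sub y w) → ¬ (T.Sub x s ∨ T.Sub y s) →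
      G.dist s (T.par x) + 1 + G.dist x w ≤ G.dist s w ∨
      G.dist s (T.par y) + 1 + G.dist y w ≤ G.dist s w) := by
  have hxr : x ≠ r := by
    intro h
    rw [h] at hd
    simp only [dist_self] at hd
    exact hne (h.trans (eq_of_dist hc hd.symm))
  have hyr : y ≠ r := by
    intro h
    rw [h] at hd
    simp only [dist_self] at hd
    exact hne ((eq_of_dist hc hd).symm.trans h.symm)
  have hx0 := pos_of_ne hc (Ne.symm hxr)
  have hr : ¬ (T.Sub x r ∨ T.Sub y r) := by
    rintro (h | h)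
    · have := sub_dist hc h
      simp only [dist_self] at this
      omega
    · have := sub_dist hc h
      simp only [dist_self] at this
      omega
  obtain ⟨zx, hzx, hNx⟩ := hleaf x
  obtain ⟨zy, hzy, hNy⟩ := hleaf y
  have hzne : zx ≠ zy := by
    intro h
    rw [h] at hzx
    exact hne (sub_unique hc hzx hzy hd)
  have hab : (T.Sub x a ∨ T.Sub y a) ∧ (T.Sub x b ∨ T.Sub y b) := by
    rcases hN zx (Or.inl hzx) hNx with h1 | h1 <;> rcases hN zy (Or.inr hzy) hNy with h3 | h3
    · exact absurd (h1.trans h3.symm) hzne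
    · rw [h1] at hzx; rw [h3] at hzy
      exact ⟨Or.inl hzx, Or.inr hzy⟩
    · rw [h1] at hzx; rw [h3] at hzy
      exact ⟨Or.inr hzy, Or.inl hzx⟩
    · exact absurd (h1.trans h3.symm) hzne
  have hbd : ∀ u ∈ {w | T.Sub x w ∨ T.Sub y w}, ∀ u' ∉ {w | T.Sub x w ∨ T.Sub y w},
      G.Adj u u' → (u = x ∧ u' = T.par x) ∨ (u = y ∧ u' = T.par y) := by
    intro u hu u' hu' hadj
    have hno : ¬ T.NT u u' := by
      intro h
      rcases hN u hu ⟨u', h⟩ with h3 | h3
      · rw [h3] at h
        have := D.mat _ _ _ h D.nt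
        rw [this] at hu'
        exact hu' hab.2
      · rw [h3] at h
        have := D.mat _ _ _ h D.nt.symm
        rw [this] at hu'
        exact hu' hab.1
    rcases hu with hu | hu
    · rcases boundary hu (fun h => hu' (Or.inl h)) hadj with h | h
      · exact Or.inl ⟨h.1, h.2.1⟩
      · exact absurd h hno
    · rcases boundary hu (fun h => hu' (Or.inr h)) hadj with h | h
      · exact Or.inr ⟨h.1, h.2.1⟩
      · exact absurd h hno
  have hSp : ∀ s, Sp T a b s → ¬ (T.Sub x s ∨ T.Sub y s) := by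
    rintro s (h | ⟨h1, h3, h4⟩) h5
    · rw [h] at h5; exact hr h5
    · rcases hN s h5 h1 with h | h
      · exact h3 h
      · exact h4 h
  refine ⟨?_, hxr, hyr, hSp, ?_⟩
  · intro hp
    have hdx := T.depth x hxr
    have hm : T.par x ∉ {w | T.Sub x w ∨ T.Sub y w} := by
      rintro (h | h)
      · have := sub_dist hc h
        omega
      · have := sub_dist hc h
        omega
    obtain ⟨u, ⟨u2, hu⟩, hua, hub⟩ := D.other
    have hu2a : u2 ≠ a := by
      intro h
      rw [h] at hu
      exact hub (D.mat _ _ _ hu.symm D.nt)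
    have hu2b : u2 ≠ b := by
      intro h
      rw [h] at hu
      exact hua (D.mat _ _ _ hu.symm D.nt.symm)
    have hex : ∃ z, z ∉ {w | T.Sub x w ∨ T.Sub y w} ∧ z ≠ T.par x := by
      by_cases h : u = T.par x
      · refine ⟨u2, hSp u2 (Or.inr ⟨⟨u, hu.symm⟩, hu2a, hu2b⟩), ?_⟩
        rw [← h]
        exact hu.1.ne'
      · exact ⟨u, hSp u (Or.inr ⟨⟨u2, hu⟩, hua, hub⟩), h⟩
    obtain ⟨v, hv, v', hv', hvm, hadj⟩ := h2 (T.par x) _ hm ⟨x, Or.inl (Sub.refl x)⟩ hex
    rcases hbd v hv v' hv' hadj with h | h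
    · exact hvm h.2
    · exact hvm (h.2.trans hp.symm)
  · intro s w hw hs
    exact cut hc hbd hw _ s hs rfl

/-- the vertices of the same depth are resolved without `a` and `b` -/
theorem vv [Finite V] (hc : G.Connected) (h2 : NoCut G) (D : Deep T a b)
    (hleaf : ∀ v, ∃ z, T.Sub v z ∧ T.N z) : ∀ (t : ℕ) (x y : V), G.dist r x = t →
    G.dist r y = t → x ≠ y → ∃ s, Sp T a b s ∧ G.dist s x ≠ G.dist s y := by
  intro t
  induction t with
  | zero =>
    intro x y hx hy hne
    exact absurd ((eq_of_dist hc hx).symm.trans (eq_of_dist hc hy)) hne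
  | succ t ih =>
    intro x y hx hy hne
    by_contra hcon
    push Not at hcon
    by_cases hZ : {z | (T.Sub x z ∨ T.Sub y z) ∧ T.N z ∧ z ≠ a ∧ z ≠ b}.Nonempty
    · obtain ⟨z, ⟨hz1, hz2, hz3, hz4⟩, hmin⟩ := Set.exists_min_image _ (fun z => G.dist r z)
        (Set.toFinite _) hZ
      have hs := hcon z (Or.inr ⟨hz2, hz3, hz4⟩)
      rcases hz1 with hz1 | hz1
      · refine key hc D hne (hx.trans hy.symm) hz1 hz3 hz4 (fun z' g1 g2 g3 g4 =>
          hmin z' ⟨Or.inr g1, g2, g3, g4⟩) ?_
        rw [G.dist_comm (u := y) (v := z), G.dist_comm (u := x) (v := z)]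
        exact hs.symm
      · refine key hc D hne.symm (hy.trans hx.symm) hz1 hz3 hz4 (fun z' g1 g2 g3 g4 =>
          hmin z' ⟨Or.inl g1, g2, g3, g4⟩) ?_
        rw [G.dist_comm (u := y) (v := z), G.dist_comm (u := x) (v := z)]
        exact hs
    · have hN : ∀ z, (T.Sub x z ∨ T.Sub y z) → T.N z → z = a ∨ z = b := by
        intro z h1 h3
        by_contra h4
        push Not at h4
        exact hZ ⟨z, h1, h3, h4.1, h4.2⟩
      obtain ⟨hp, hxr, hyr, hSp, hcut⟩ := legs hc h2 D hleaf hne (hx.trans hy.symm) hN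
      have hdx := T.depth x hxr
      have hdy := T.depth y hyr
      obtain ⟨s, hs, hsne⟩ := ih (T.par x) (T.par y) (by omega) (by omega) hp
      apply hsne
      have hs' := hSp s hs
      have e := hcon s hs
      have c1 := hcut s x (Or.inl (Sub.refl x)) hs'
      have c2 := hcut s y (Or.inr (Sub.refl y)) hs'
      have a1 := adj_dist hc (T.adj x hxr) s
      have a2 := adj_dist hc (T.adj y hyr) s
      have p1 := pos_of_ne hc hne
      have p2 : G.dist y x = G.dist x y := G.dist_comm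
      have p3 : G.dist x x = 0 := dist_self
      have p4 : G.dist y y = 0 := dist_self
      omega

/-- tree edges of the same depth are resolved without `a` and `b` -/
theorem ee [Finite V] (hc : G.Connected) (h2 : NoCut G) (D : Deep T a b)
    (hleaf : ∀ v, ∃ z, T.Sub v z ∧ T.N z) (x y : V) (hxr : x ≠ r) (hyr : y ≠ r)
    (hd : G.dist r x = G.dist r y) (hne : x ≠ y) :
    ∃ s, Sp T a b s ∧
      min (G.dist s (T.par x)) (G.dist s x) ≠ min (G.dist s (T.par y)) (G.dist s y) := by
  have hdx := T.depth x hxr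
  have hdy := T.depth y hyr
  by_contra hcon
  push Not at hcon
  by_cases hZ : {z | (T.Sub x z ∨ T.Sub y z) ∧ T.N z ∧ z ≠ a ∧ z ≠ b}.Nonempty
  · obtain ⟨z, ⟨hz1, hz2, hz3, hz4⟩, hmin⟩ := Set.exists_min_image _ (fun z => G.dist r z)
      (Set.toFinite _) hZ
    have hs := hcon z (Or.inr ⟨hz2, hz3, hz4⟩)
    have e1 : G.dist x z = G.dist z x := G.dist_comm
    have e2 : G.dist y z = G.dist z y := G.dist_comm
    have e3 : G.dist (T.par x) z = G.dist z (T.par x) := G.dist_comm
    have e4 : G.dist (T.par y) z = G.dist z (T.par y) := G.dist_comm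
    have t1 : G.dist r z ≤ G.dist r x + G.dist x z := hc.dist_triangle
    have t2 : G.dist r z ≤ G.dist r y + G.dist y z := hc.dist_triangle
    have t3 : G.dist r z ≤ G.dist r (T.par x) + G.dist (T.par x) z := hc.dist_triangle
    have t4 : G.dist r z ≤ G.dist r (T.par y) + G.dist (T.par y) z := hc.dist_triangle
    rcases hz1 with hz1 | hz1
    · have t5 := sub_dist hc hz1
      refine key hc D hne hd hz1 hz3 hz4 (fun z' g1 g2 g3 g4 =>
        hmin z' ⟨Or.inr g1, g2, g3, g4⟩) ?_
      omega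
    · have t5 := sub_dist hc hz1
      refine key hc D hne.symm hd.symm hz1 hz3 hz4 (fun z' g1 g2 g3 g4 =>
        hmin z' ⟨Or.inl g1, g2, g3, g4⟩) ?_
      omega
  · have hN : ∀ z, (T.Sub x z ∨ T.Sub y z) → T.N z → z = a ∨ z = b := by
      intro z h1 h3
      by_contra h4
      push Not at h4
      exact hZ ⟨z, h1, h3, h4.1, h4.2⟩
    obtain ⟨hp, -, -, hSp, hcut⟩ := legs hc h2 D hleaf hne hd hN
    obtain ⟨s, hs, hsne⟩ := vv hc h2 D hleaf (G.dist r (T.par x)) (T.par x) (T.par y) rfl
      (by omega) hp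
    have hs' := hSp s hs
    have e := hcon s hs
    have c1 := hcut s x (Or.inl (Sub.refl x)) hs'
    have c2 := hcut s y (Or.inr (Sub.refl y)) hs'
    have p1 := pos_of_ne hc hne
    have p2 : G.dist y x = G.dist x y := G.dist_comm
    have p3 : G.dist x x = 0 := dist_self
    have p4 : G.dist y y = 0 := dist_self
    omega

end BFS

end Run7.h198.Mix
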