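import Pool.Agent.Run7.h198.MixDrop

/-!
# The resolving sets
-/

set_option autoImplicit false

namespace Run7.h198.Mix

open SimpleGraph Relation

variable {V : Type*} {G : SimpleGraph V}

namespace BFS

variable {r : V} {T : BFS G r} {a b : V}

/-- the conditions for the set `A` to be a mixed resolving set -/
structure Good (T : BFS G r) (A : Set V) : Prop where
  root : r ∈ A
  vv : ∀ x y, x ≠ y → G.dist r x = G.dist r y → ∃ s ∈ A, G.dist s x ≠ G.dist s y
  ee : ∀ x y, x ≠ r → y ≠ r → x ≠ y → G.dist r x = G.dist r y → ∃ s ∈ A,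
    min (G.dist s (T.par x)) (G.dist s x) ≠ min (G.dist s (T.par y)) (G.dist s y)
  ve : ∀ x y, x ≠ r → G.dist r (T.par x) = G.dist r y → ∃ s ∈ A,
    min (G.dist s (T.par x)) (G.dist s x) ≠ G.dist s y
  nv : ∀ u v y, T.NT u v → ∃ s ∈ A, min (G.dist s u) (G.dist s v) ≠ G.dist s y
  ne : ∀ u v u' v', T.NT u v → G.Adj u' v' → s(u, v) ≠ s(u', v') → ∃ s ∈ A,
    min (G.dist s u) (G.dist s v) ≠ min (G.dist s u') (G.dist s v')

theorem nt_vertex (hc : G.Connected) {A : Set V} {u v : V} (hadj : G.Adj u v) (hu : u ∈ A)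
    (hv : v ∈ A) (y : V) : ∃ s ∈ A, min (G.dist s u) (G.dist s v) ≠ G.dist s y := by
  by_cases h : y = u
  · refine ⟨v, hv, ?_⟩
    have := pos_of_ne hc hadj.ne'
    rw [h, dist_self]
    omega
  · refine ⟨u, hu, ?_⟩
    have := pos_of_ne hc (Ne.symm h)
    rw [dist_self]
    omega

theorem nt_edge (hc : G.Connected) {A : Set V} {u v u' v' : V} (hadj : G.Adj u v)
    (hu : u ∈ A) (hv : v ∈ A) (hne : s(u, v) ≠ s(u', v')) :
    ∃ s ∈ A, min (G.dist s u) (G.dist s v) ≠ min (G.dist s u') (G.dist s v') := by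
  by_cases h : u = u' ∨ u = v'
  · refine ⟨v, hv, ?_⟩
    have h1 : v ≠ u' ∧ v ≠ v' := by
      constructor
      · rintro rfl
        rcases h with h | h
        · exact hadj.ne h
        · rw [h] at hne
          exact hne Sym2.eq_swap
      · rintro rfl
        rcases h with h | h
        · rw [h] at hne
          exact hne rfl
        · exact hadj.ne h
    have p1 := pos_of_ne hc h1.1
    have p2 := pos_of_ne hc h1.2
    have p3 : G.dist v v = 0 := dist_self
    omega
  · push Not at h
    refine ⟨u, hu, ?_⟩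
    have p1 := pos_of_ne hc h.1
    have p2 := pos_of_ne hc h.2
    have p3 : G.dist u u = 0 := dist_self
    omega

theorem nbr_deep (D : Deep T a b) {u : V} (h : G.Adj b u) : u = T.par b ∨ u = a := by
  by_cases h1 : T.par b = u
  · exact Or.inl h1.symm
  · by_cases h2 : T.par u = b
    · exfalso
      have hur : u ≠ r := by
        intro h3
        rw [h3, T.root] at h2
        rw [h3, h2] at h
        exact h.ne rfl
      have h4 := T.depth u hur
      have h5 := D.max u
      rw [h2] at h4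
      omega
    · exact Or.inr (D.mat _ _ _ ⟨h, h1, h2⟩ D.nt.symm)

/-- in the matching case one end of a deepest edge outside the tree can be left out -/
theorem good_drop [Finite V] (hc : G.Connected) (h2 : NoCut G) (D : Deep T a b)
    (hleaf : ∀ v, ∃ z, T.Sub v z ∧ T.N z)
    (hcase : G.dist r b = G.dist r a + 1 ∨
      (G.dist r a = G.dist r b ∧ ∃ s, Sp T a b s ∧ G.dist s a < G.dist s b)) :
    Good T {s | s = r ∨ (T.N s ∧ s ≠ a)} := by
  have hsub : ∀ s, Sp T a b s → s ∈ {s | s = r ∨ (T.N s ∧ s ≠ a)} := by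
    rintro s (h | h)
    · exact Or.inl h
    · exact Or.inr ⟨h.1, h.2.1⟩
  have hbA : b ∈ {s | s = r ∨ (T.N s ∧ s ≠ a)} := Or.inr ⟨⟨a, D.nt.symm⟩, D.nt.1.ne'⟩
  have hrA : r ∈ {s | s = r ∨ (T.N s ∧ s ≠ a)} := Or.inl rfl
  have hba : b ≠ a := D.nt.1.ne'
  have dab : G.dist b a = 1 := dist_eq_one_iff_adj.2 D.nt.1.symm
  have hpair : ∀ u v, T.NT u v → (u = a ∧ v = b) ∨ (u = b ∧ v = a) ∨
      (u ∈ {s | s = r ∨ (T.N s ∧ s ≠ a)} ∧ v ∈ {s | s = r ∨ (T.N s ∧ s ≠ a)}) := by
    intro u v h
    by_cases hu : u = a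
    · left
      subst hu
      exact ⟨rfl, D.mat _ _ _ h D.nt⟩
    · by_cases hv : v = a
      · right; left
        subst hv
        exact ⟨D.mat _ _ _ h.symm D.nt, rfl⟩
      · right; right
        exact ⟨Or.inr ⟨⟨v, h⟩, hu⟩, Or.inr ⟨⟨u, h.symm⟩, hv⟩⟩
  have nv_ab : ∀ y, ∃ s ∈ {s | s = r ∨ (T.N s ∧ s ≠ a)},
      min (G.dist s a) (G.dist s b) ≠ G.dist s y := by
    intro y
    by_cases hy : y = b
    · subst hy
      rcases hcase with hP | ⟨-, s, hs, hlt⟩
      · exact ⟨r, hrA, by omega⟩
      · exact ⟨s, hsub s hs, by omega⟩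
    · refine ⟨b, hbA, ?_⟩
      have := pos_of_ne hc (Ne.symm hy)
      have p3 : G.dist b b = 0 := dist_self
      omega
  have ne_b : ∃ s ∈ {s | s = r ∨ (T.N s ∧ s ≠ a)},
      min (G.dist s a) (G.dist s b) ≠ min (G.dist s b) (G.dist s (T.par b)) := by
    have hbr : b ≠ r := by
      intro h
      have h3 := D.nt.symm.2.1
      have h4 := D.max a
      rw [h] at h4
      simp only [dist_self] at h4
      have h5 := pos_of_ne hc D.nt.1.ne
      have h6 := eq_of_dist hc (Nat.le_zero.1 h4)
      exact D.nt.1.ne (h6.symm.trans h.symm)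
    have hdb := T.depth b hbr
    rcases hcase with hP | ⟨hH, -⟩
    · obtain ⟨s, hs, hsne⟩ := vv hc h2 D hleaf (G.dist r a) (T.par b) a (by omega) rfl
        (fun h => D.nt.2.2 h)
      refine ⟨s, hsub s hs, ?_⟩
      have hsb : s ∉ ({b} : Set V) := by
        rintro h
        rw [Set.mem_singleton_iff] at h
        rcases hs with h3 | h3
        · exact hbr (h.symm.trans h3)
        · exact h3.2.2 h
      have hbd : ∀ u ∈ ({b} : Set V), ∀ u' ∉ ({b} : Set V), G.Adj u u' →
          (u = b ∧ u' = T.par b) ∨ (u = b ∧ u' = a) := by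
        intro u hu u' _ hadj
        rw [Set.mem_singleton_iff] at hu
        subst hu
        rcases nbr_deep D hadj with h | h
        · exact Or.inl ⟨rfl, h⟩
        · exact Or.inr ⟨rfl, h⟩
      have c := cut hc hbd (Set.mem_singleton b) _ s hsb rfl
      have p3 : G.dist b b = 0 := dist_self
      have a1 := adj_dist hc (T.adj b hbr) s
      have a2 := adj_dist hc D.nt.1.symm s
      omega
    · exact ⟨r, hrA, by omega⟩
  refine ⟨hrA, ?_, ?_, ?_, ?_, ?_⟩
  · intro x y hne hd
    obtain ⟨s, hs, h⟩ := vv hc h2 D hleaf _ x y hd rfl hne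
    exact ⟨s, hsub s hs, h⟩
  · intro x y hxr hyr hne hd
    obtain ⟨s, hs, h⟩ := ee hc h2 D hleaf x y hxr hyr hd hne
    exact ⟨s, hsub s hs, h⟩
  · intro x y hxr hd
    have hdx := T.depth x hxr
    by_cases h : ∃ z, T.Sub x z ∧ T.N z ∧ z ≠ a
    · obtain ⟨z, hz1, hz2, hz3⟩ := h
      refine ⟨z, Or.inr ⟨hz2, hz3⟩, ?_⟩
      have t1 := sub_dist hc hz1
      have t2 : G.dist r z ≤ G.dist r y + G.dist y z := hc.dist_triangle
      have e1 : G.dist x z = G.dist z x := G.dist_comm
      have e2 : G.dist y z = G.dist z y := G.dist_comm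
      omega
    · push Not at h
      obtain ⟨z, hz1, hz2⟩ := hleaf x
      have hza := h z hz1 hz2
      subst hza
      have t1 := sub_dist hc hz1
      have t2 : G.dist r b ≤ G.dist r y + G.dist y b := hc.dist_triangle
      have e2 : G.dist y b = G.dist b y := G.dist_comm
      have e3 : G.dist b x ≤ G.dist b z + G.dist z x := hc.dist_triangle
      have e4 : G.dist z x = G.dist x z := G.dist_comm
      rcases hcase with hP | ⟨hH, s0, hs0, hlt⟩
      · exact ⟨b, hbA, by omega⟩
      · by_cases hb : min (G.dist b (T.par x)) (G.dist b x) ≠ G.dist b y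
        · exact ⟨b, hbA, hb⟩
        · push Not at hb
          refine ⟨s0, hsub s0 hs0, ?_⟩
          have hbd : ∀ u ∈ {w | T.Sub x w}, ∀ u' ∉ {w | T.Sub x w}, G.Adj u u' →
              (u = x ∧ u' = T.par x) ∨ (u = z ∧ u' = b) := by
            intro u hu u' hu' hadj
            rcases boundary hu hu' hadj with h3 | h3
            · exact Or.inl ⟨h3.1, h3.2.1⟩
            · right
              have h4 := h u hu ⟨u', h3⟩
              subst h4
              exact ⟨rfl, D.mat _ _ _ h3 D.nt⟩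
          have hs0' : s0 ∉ {w | T.Sub x w} := by
            intro h3
            rcases hs0 with h4 | h4
            · rw [h4] at h3
              have h5 := sub_dist hc h3
              have h6 := pos_of_ne hc (Ne.symm hxr)
              simp only [dist_self] at h5
              omega
            · exact h4.2.1 (h s0 h3 h4.1)
          have c := cut hc hbd (show z ∈ {w | T.Sub x w} from hz1) _ s0 hs0' rfl
          have p3 : G.dist z z = 0 := dist_self
          have t3 : G.dist s0 b ≤ G.dist s0 y + G.dist y b := hc.dist_triangle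
          omega
  · intro u v y h
    rcases hpair u v h with ⟨h1, h3⟩ | ⟨h1, h3⟩ | ⟨h1, h3⟩
    · subst h1; subst h3
      exact nv_ab y
    · subst h1; subst h3
      obtain ⟨s, hs, hne⟩ := nv_ab y
      exact ⟨s, hs, by rw [min_comm]; exact hne⟩
    · exact nt_vertex hc h.1 h1 h3 y
  · have ne_ab : ∀ u' v', G.Adj u' v' → s(a, b) ≠ s(u', v') →
        ∃ s ∈ {s | s = r ∨ (T.N s ∧ s ≠ a)},
          min (G.dist s a) (G.dist s b) ≠ min (G.dist s u') (G.dist s v') := by
      intro u' v' hadj hne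
      by_cases h1 : b = u'
      · subst h1
        rcases nbr_deep D hadj with h3 | h3
        · rw [h3]; exact ne_b
        · exact absurd (by rw [h3]; exact Sym2.eq_swap) hne
      · by_cases h3 : b = v'
        · subst h3
          rcases nbr_deep D hadj.symm with h4 | h4
          · rw [h4]
            obtain ⟨s, hs, h5⟩ := ne_b
            exact ⟨s, hs, by rw [min_comm (G.dist s (T.par b))]; exact h5⟩
          · exact absurd (by rw [h4]) hne
        · refine ⟨b, hbA, ?_⟩
          have p1 := pos_of_ne hc h1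
          have p2 := pos_of_ne hc h3
          have p3 : G.dist b b = 0 := dist_self
          omega
    intro u v u' v' h hadj hne
    rcases hpair u v h with ⟨h1, h3⟩ | ⟨h1, h3⟩ | ⟨h1, h3⟩
    · subst h1; subst h3
      exact ne_ab u' v' hadj hne
    · subst h1; subst h3
      obtain ⟨s, hs, h5⟩ := ne_ab u' v' hadj (fun h => hne (Sym2.eq_swap.trans h))
      exact ⟨s, hs, by rw [min_comm (G.dist s u)]; exact h5⟩
    · exact nt_edge hc h.1 h1 h3 hne

theorem keyF (hc : G.Connected) {x y z : V} (hne : x ≠ y)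
    (hd : G.dist r x = G.dist r y) (hz : T.Sub x z)
    (hmin : ∀ z', T.Sub y z' → T.N z' → G.dist r z ≤ G.dist r z')
    (heq : G.dist y z = G.dist x z) : False := by
  have h1 := sub_dist hc hz
  obtain ⟨a1, b1, g1, g2, g3, g4⟩ := lemK hc (G.dist y z) x y z hne hd hz rfl (by omega)
  have := hmin a1 g2 ⟨b1, g1⟩
  omega

/-- the root and all ends of edges outside the tree -/
theorem good_full [Finite V] (hc : G.Connected) (hleaf : ∀ v, ∃ z, T.Sub v z ∧ T.N z) :
    Good T {s | s = r ∨ T.N s} := by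
  refine ⟨Or.inl rfl, ?_, ?_, ?_, ?_, ?_⟩
  · intro x y hne hd
    have hZ : {z | (T.Sub x z ∨ T.Sub y z) ∧ T.N z}.Nonempty := by
      obtain ⟨z, h1, h3⟩ := hleaf x
      exact ⟨z, Or.inl h1, h3⟩
    obtain ⟨z, ⟨hz1, hz2⟩, hmin⟩ := Set.exists_min_image _ (fun z => G.dist r z)
      (Set.toFinite _) hZ
    refine ⟨z, Or.inr hz2, fun hs => ?_⟩
    rcases hz1 with hz1 | hz1
    · refine keyF hc hne hd hz1 (fun z' g1 g2 => hmin z' ⟨Or.inr g1, g2⟩) ?_
      rw [G.dist_comm (u := y) (v := z), G.dist_comm (u := x) (v := z)]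
      exact hs.symm
    · refine keyF hc hne.symm hd.symm hz1 (fun z' g1 g2 => hmin z' ⟨Or.inl g1, g2⟩) ?_
      rw [G.dist_comm (u := y) (v := z), G.dist_comm (u := x) (v := z)]
      exact hs
  · intro x y hxr hyr hne hd
    have hdx := T.depth x hxr
    have hdy := T.depth y hyr
    have hZ : {z | (T.Sub x z ∨ T.Sub y z) ∧ T.N z}.Nonempty := by
      obtain ⟨z, h1, h3⟩ := hleaf x
      exact ⟨z, Or.inl h1, h3⟩
    obtain ⟨z, ⟨hz1, hz2⟩, hmin⟩ := Set.exists_min_image _ (fun z => G.dist r z)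
      (Set.toFinite _) hZ
    refine ⟨z, Or.inr hz2, fun hs => ?_⟩
    have e1 : G.dist x z = G.dist z x := G.dist_comm
    have e2 : G.dist y z = G.dist z y := G.dist_comm
    have e3 : G.dist (T.par x) z = G.dist z (T.par x) := G.dist_comm
    have e4 : G.dist (T.par y) z = G.dist z (T.par y) := G.dist_comm
    have t1 : G.dist r z ≤ G.dist r x + G.dist x z := hc.dist_triangle
    have t2 : G.dist r z ≤ G.dist r y + G.dist y z := hc.dist_triangle
    have t3 : G.dist r z ≤ G.dist r (T.par x) + G.dist (T.par x) z := hc.dist_triangle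
    have t4 : G.dist r z ≤ G.dist r (T.par y) + G.dist (T.par y) z := hc.dist_triangle
    rcases hz1 with hz1 | hz1
    · have t5 := sub_dist hc hz1
      refine keyF hc hne hd hz1 (fun z' g1 g2 => hmin z' ⟨Or.inr g1, g2⟩) ?_
      omega
    · have t5 := sub_dist hc hz1
      refine keyF hc hne.symm hd.symm hz1 (fun z' g1 g2 => hmin z' ⟨Or.inl g1, g2⟩) ?_
      omega
  · intro x y hxr hd
    have hdx := T.depth x hxr
    obtain ⟨z, hz1, hz2⟩ := hleaf x
    refine ⟨z, Or.inr hz2, ?_⟩
    have t1 := sub_dist hc hz1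
    have t2 : G.dist r z ≤ G.dist r y + G.dist y z := hc.dist_triangle
    have e1 : G.dist x z = G.dist z x := G.dist_comm
    have e2 : G.dist y z = G.dist z y := G.dist_comm
    omega
  · intro u v y h
    exact nt_vertex hc h.1 (Or.inr ⟨v, h⟩) (Or.inr ⟨u, h.symm⟩) y
  · intro u v u' v' h _ hne
    exact nt_edge hc h.1 (Or.inr ⟨v, h⟩) (Or.inr ⟨u, h.symm⟩) hne

end BFS

end Run7.h198.Mix
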