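import Pool.Agent.Run7.h198.MixGood

/-!
# Counting and the main bound
-/

set_option autoImplicit false

namespace Run7.h198.Mix

open SimpleGraph Relation Finset

variable {V : Type*} {G : SimpleGraph V}

theorem noCut_of_induce (h : ∀ v : V, (G.induce {v}ᶜ).Connected) : NoCut G := by
  rintro m U hm ⟨x, hx⟩ ⟨z, hz, hzm⟩
  have hxm : x ∈ ({m}ᶜ : Set V) := by
    intro h1
    rw [Set.mem_singleton_iff] at h1
    rw [h1] at hx
    exact hm hx
  have hzm' : z ∈ ({m}ᶜ : Set V) := hzm
  obtain ⟨p⟩ := (h m).preconnected ⟨x, hxm⟩ ⟨z, hzm'⟩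
  obtain ⟨d, -, h1, h2⟩ := p.exists_boundary_dart {w | (w : V) ∈ U} hx hz
  exact ⟨d.fst, h1, d.snd, h2, d.snd.2, d.adj⟩

theorem exists_nbr [Fintype V] (h3 : 3 ≤ Fintype.card V) (h : NoCut G) (z w : V) :
    ∃ u, u ≠ w ∧ G.Adj z u := by
  classical
  by_cases hzw : z = w
  · subst hzw
    obtain ⟨y, hy⟩ : ∃ y : V, y ≠ z := by
      by_contra hcon
      push Not at hcon
      have : Fintype.card V ≤ 1 := Fintype.card_le_one_iff.2 (fun a b => (hcon a).trans (hcon b).symm)
      omega
    obtain ⟨x, hx⟩ : ∃ x : V, x ≠ z ∧ x ≠ y := by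
      by_contra hcon
      push Not at hcon
      have : (univ : Finset V) ⊆ {z, y} := by
        intro x _
        by_cases hx : x = z
        · simp [hx]
        · simp [hcon x hx]
      have h4 := card_le_card this
      have h5 := Finset.card_le_two (a := z) (b := y)
      rw [card_univ] at h4
      omega
    obtain ⟨u, hu, u', hu', hne, hadj⟩ := h y {z} (fun h1 => hy h1) ⟨z, rfl⟩
      ⟨x, fun h1 => hx.1 h1, hx.2⟩
    rw [Set.mem_singleton_iff] at hu
    subst hu
    exact ⟨u', fun h1 => hu' h1, hadj⟩
  · obtain ⟨x, hx⟩ : ∃ x : V, x ≠ z ∧ x ≠ w := by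
      by_contra hcon
      push Not at hcon
      have : (univ : Finset V) ⊆ {z, w} := by
        intro x _
        by_cases hx : x = z
        · simp [hx]
        · simp [hcon x hx]
      have h4 := card_le_card this
      have h5 := Finset.card_le_two (a := z) (b := w)
      rw [card_univ] at h4
      omega
    obtain ⟨u, hu, u', hu', hne, hadj⟩ := h w {z} (fun h1 => hzw (h1.symm)) ⟨z, rfl⟩
      ⟨x, fun h1 => hx.1 h1, hx.2⟩
    rw [Set.mem_singleton_iff] at hu
    subst hu
    exact ⟨u', hne, hadj⟩

open Classical in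
theorem card_nt [Fintype V] {r : V} (T : BFS G r) :
    (univ.filter (fun p : V × V => T.NT p.1 p.2)).card + 2 * (Fintype.card V - 1) =
      2 * Nat.card G.edgeSet := by
  rw [Nat.card_eq_fintype_card, ← edgeFinset_card]
  have hP : (univ.filter (fun p : V × V => G.Adj p.1 p.2)).card = 2 * G.edgeFinset.card := by
    rw [← G.dart_card_eq_twice_card_edges, ← card_univ,
      ← card_image_of_injective (univ : Finset G.Dart) (Dart.toProd_injective)]
    congr 1
    ext p
    simp only [mem_filter, mem_univ, true_and, mem_image]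
    constructor
    · intro h
      exact ⟨⟨p, h⟩, rfl⟩
    · rintro ⟨d, rfl⟩
      exact d.adj
  have h1 : ((univ.erase r).image (fun v => (v, T.par v))).card = Fintype.card V - 1 := by
    rw [card_image_of_injective _ (fun a b h => (Prod.mk.inj h).1), card_erase_of_mem (mem_univ r),
      card_univ]
  have h2 : ((univ.erase r).image (fun v => (T.par v, v))).card = Fintype.card V - 1 := by
    rw [card_image_of_injective _ (fun a b h => (Prod.mk.inj h).2), card_erase_of_mem (mem_univ r),
      card_univ]
  have hd1 : Disjoint ((univ.erase r).image (fun v => (v, T.par v)))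
      ((univ.erase r).image (fun v => (T.par v, v))) := by
    rw [Finset.disjoint_left]
    rintro ⟨p, q⟩ hp hq
    simp only [mem_image, mem_erase, mem_univ, and_true, Prod.mk.injEq] at hp hq
    obtain ⟨v, hv, rfl, rfl⟩ := hp
    obtain ⟨w, hw, h3, h4⟩ := hq
    have e1 := T.depth _ hv
    have e2 := T.depth _ hw
    rw [h3] at e2
    rw [h4] at e2
    omega
  have hd2 : Disjoint (univ.filter (fun p : V × V => T.NT p.1 p.2))
      ((univ.erase r).image (fun v => (v, T.par v)) ∪
        (univ.erase r).image (fun v => (T.par v, v))) := by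
    rw [Finset.disjoint_left]
    rintro ⟨p, q⟩ hp hq
    simp only [mem_filter, mem_univ, true_and] at hp
    simp only [mem_union, mem_image, mem_erase, mem_univ, and_true, Prod.mk.injEq] at hq
    rcases hq with ⟨v, hv, h3, h4⟩ | ⟨v, hv, h3, h4⟩
    · rw [h3] at h4; exact hp.2.1 h4
    · rw [h4] at h3; exact hp.2.2 h3
  have hU : univ.filter (fun p : V × V => G.Adj p.1 p.2) =
      univ.filter (fun p : V × V => T.NT p.1 p.2) ∪
      ((univ.erase r).image (fun v => (v, T.par v)) ∪
        (univ.erase r).image (fun v => (T.par v, v))) := by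
    ext ⟨p, q⟩
    simp only [mem_filter, mem_univ, true_and, mem_union, mem_image, mem_erase, and_true,
      Prod.mk.injEq]
    constructor
    · intro h
      by_cases h3 : T.par p = q
      · right; left
        refine ⟨p, ?_, rfl, h3⟩
        rintro rfl
        rw [T.root] at h3
        exact h.ne h3
      · by_cases h4 : T.par q = p
        · right; right
          refine ⟨q, ?_, h4, rfl⟩
          rintro rfl
          rw [T.root] at h4
          exact h.ne h4.symm
        · exact Or.inl ⟨h, h3, h4⟩
    · rintro (h | ⟨v, hv, h3, h4⟩ | ⟨v, hv, h3, h4⟩)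
      · exact h.1
      · rw [← h3, ← h4]; exact T.adj v hv
      · rw [← h3, ← h4]; exact (T.adj v hv).symm
  rw [hU, card_union_of_disjoint hd2, card_union_of_disjoint hd1, h1, h2] at hP
  omega

/-- The main bound, in terms of sets satisfying `Good`. -/
theorem exists_good [Fintype V] (h3 : 3 ≤ Fintype.card V) (hc : G.Connected) (h : NoCut G)
    (hm : Fintype.card V < Nat.card G.edgeSet) :
    ∃ (r : V) (T : BFS G r) (A : Finset V), T.Good (A : Set V) ∧
      A.card + 2 * Fintype.card V ≤ 2 * Nat.card G.edgeSet + 2 := by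
  classical
  obtain ⟨r⟩ := hc.nonempty
  obtain ⟨T⟩ := exists_bfs hc r
  have hleaf := BFS.exists_leaf (T := T) hc (exists_nbr h3 h)
  have hcard := card_nt T
  set D := univ.filter (fun p : V × V => T.NT p.1 p.2) with hD
  set N := D.image Prod.fst with hN
  have hNmem : ∀ u, u ∈ N ↔ T.N u := by
    intro u
    simp only [hN, hD, mem_image, mem_filter, mem_univ, true_and]
    constructor
    · rintro ⟨⟨p, q⟩, h1, rfl⟩
      exact ⟨q, h1⟩
    · rintro ⟨v, hv⟩
      exact ⟨(u, v), hv, rfl⟩
  by_cases hmat : ∀ u v v', T.NT u v → T.NT u v' → v = v'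
  · -- matching
    have hNle : N.card ≤ D.card := card_image_le
    obtain ⟨b, -, hbmax⟩ := Set.exists_max_image (Set.univ : Set V) (fun z => G.dist r z)
      (Set.toFinite _) ⟨r, trivial⟩
    have hbmax' : ∀ v, G.dist r v ≤ G.dist r b := fun v => hbmax v trivial
    obtain ⟨z, hz, hNz⟩ := hleaf b
    have hzb : z = b := by
      have h1 := BFS.sub_dist hc hz
      have h2 := hbmax' z
      exact (eq_of_dist hc (by omega : G.dist b z = 0)).symm
    rw [hzb] at hNz
    obtain ⟨a, hba⟩ := hNz
    have hother : ∃ u, T.N u ∧ u ≠ a ∧ u ≠ b := by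
      by_contra hcon
      push Not at hcon
      have hsub : D ⊆ {(a, b), (b, a)} := by
        rintro ⟨p, q⟩ hp
        rw [hD, mem_filter] at hp
        have hp2 : T.NT p q := hp.2
        rw [mem_insert, mem_singleton]
        by_cases hpa : p = a
        · left
          rw [hpa] at hp2 ⊢
          rw [hmat _ _ _ hp2 hba.symm]
        · right
          have := hcon p ⟨q, hp2⟩ hpa
          rw [this] at hp2 ⊢
          rw [hmat _ _ _ hp2 hba]
      have h4 := card_le_card hsub
      have h5 := Finset.card_le_two (a := (a, b)) (b := (b, a))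
      omega
    have hDeep : T.Deep a b := ⟨hba.symm, hmat, hbmax', hother⟩
    have hfin : ∀ d : V, T.N d → (insert r (N.erase d)).card + 2 * Fintype.card V ≤
        2 * Nat.card G.edgeSet + 2 := by
      intro d hd
      have h6 := card_insert_le r (N.erase d)
      have h7 := card_erase_of_mem ((hNmem d).2 hd)
      have h8 : 0 < N.card := card_pos.2 ⟨d, (hNmem d).2 hd⟩
      omega
    have hset : ∀ d : V, ((insert r (N.erase d) : Finset V) : Set V) =
        {s | s = r ∨ (T.N s ∧ s ≠ d)} := by
      intro d
      ext s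
      simp only [coe_insert, coe_erase, Set.mem_insert_iff, Set.mem_sdiff, mem_coe, hNmem,
        Set.mem_singleton_iff]
      rfl
    have hab := adj_dist hc hba.1 r
    have hmaxa := hbmax' a
    by_cases hP : G.dist r b = G.dist r a + 1
    · refine ⟨r, T, insert r (N.erase a), ?_, hfin a ⟨b, hba.symm⟩⟩
      rw [hset]
      exact BFS.good_drop hc h hDeep hleaf (Or.inl hP)
    · have hH : G.dist r a = G.dist r b := by omega
      obtain ⟨s, hs, hsne⟩ := BFS.vv hc h hDeep hleaf (G.dist r b) a b hH rfl hba.1.ne'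
      rcases Nat.lt_or_gt_of_ne hsne with hlt | hlt
      · refine ⟨r, T, insert r (N.erase a), ?_, hfin a ⟨b, hba.symm⟩⟩
        rw [hset]
        exact BFS.good_drop hc h hDeep hleaf (Or.inr ⟨hH, s, hs, hlt⟩)
      · refine ⟨r, T, insert r (N.erase b), ?_, hfin b ⟨a, hba⟩⟩
        rw [hset]
        have hDeep' : T.Deep b a := ⟨hba, hmat, fun v => by rw [hH]; exact hbmax' v, by
          obtain ⟨u, h1, h2, h4⟩ := hother
          exact ⟨u, h1, h4, h2⟩⟩
        refine BFS.good_drop hc h hDeep' hleaf (Or.inr ⟨hH.symm, s, ?_, hlt⟩)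
        rcases hs with hs | hs
        · exact Or.inl hs
        · exact Or.inr ⟨hs.1, hs.2.2, hs.2.1⟩
  · -- no matching
    push Not at hmat
    obtain ⟨u, v, v', hv, hv', hne⟩ := hmat
    have hNlt : N.card < D.card := by
      refine lt_of_le_of_ne card_image_le (fun h1 => ?_)
      have h2 := card_image_iff.1 h1
      have h4 := h2 (show (u, v) ∈ (D : Set (V × V)) by
          rw [mem_coe, hD, mem_filter]; exact ⟨mem_univ _, hv⟩)
        (show (u, v') ∈ (D : Set (V × V)) by
          rw [mem_coe, hD, mem_filter]; exact ⟨mem_univ _, hv'⟩) rfl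
      exact hne (Prod.mk.inj h4).2
    refine ⟨r, T, insert r N, ?_, ?_⟩
    · have hset : ((insert r N : Finset V) : Set V) = {s | s = r ∨ T.N s} := by
        ext s
        simp only [coe_insert, Set.mem_insert_iff, mem_coe, hNmem]
        rfl
      rw [hset]
      exact BFS.good_full hc hleaf
    · have h6 := card_insert_le r N
      omega

end Run7.h198.Mix
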