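import Pool.Agent.Run7.h198.HyperCount
import Pool.Agent.Run7.h198.CB

/-! Second moment bound for the number of pairs of vertices of equal degree. -/

set_option autoImplicit false

namespace Run7.h198

open Finset

variable {n k : ℕ}

/-- all `k`-uniform hypergraphs on `Fin n` -/
abbrev Om (n k : ℕ) : Finset (Finset (Finset (Fin n))) :=
  (powersetCard k (univ : Finset (Fin n))).powerset

lemma card_Om : (Om n k).card = 2 ^ (n.choose k) := by
  rw [card_powerset, card_powersetCard, card_univ, Fintype.card_fin]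

lemma one_pair_le_real (hk : 1 ≤ k) (u v : Fin n) (huv : u ≠ v) (c c' : ℕ) :
    (((Om n k).filter (fun H => deg H u + c = deg H v + c')).card : ℝ) ≤
      2 ^ (n.choose k) * cc ((n - 2).choose (k - 1)) := by
  have hn : 2 ≤ n := by
    have h1 := u.2; have h2 := v.2
    have h3 : (u : ℕ) ≠ v := fun h => huv (Fin.ext h)
    omega
  have h := one_pair_le hk u v huv c c'
  have h' := real_bound (K := n.choose k) (D := 2 * (n - 2).choose (k - 1)) (D' := 0)
    (N := (2 * (n - 2).choose (k - 1)).choose ((n - 2).choose (k - 1))) (N' := 1)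
    (by simpa using h) (by simpa using mul_choose_le hk hn)
  simpa [cc] using h'

lemma pair_eq_real (hk : 1 ≤ k) (u v : Fin n) (huv : u ≠ v) :
    (((Om n k).filter (fun H => deg H u = deg H v)).card : ℝ) =
      2 ^ (n.choose k) * cc ((n - 2).choose (k - 1)) := by
  have hn : 2 ≤ n := by
    have h1 := u.2; have h2 := v.2
    have h3 : (u : ℕ) ≠ v := fun h => huv (Fin.ext h)
    omega
  apply le_antisymm
  · simpa using one_pair_le_real hk u v huv 0 0
  · have h := one_pair_ge hk u v huv
    have hle := mul_choose_le hk hn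
    have h1 : ((2 ^ (n.choose k - 2 * (n - 2).choose (k - 1)) *
        (2 * (n - 2).choose (k - 1)).choose ((n - 2).choose (k - 1)) : ℕ) : ℝ) ≤
        (((Om n k).filter (fun H => deg H u = deg H v)).card : ℝ) := by exact_mod_cast h
    refine le_trans (le_of_eq ?_) h1
    rw [cc]
    obtain ⟨r, hr⟩ := Nat.exists_eq_add_of_le hle
    rw [hr, Nat.add_sub_cancel_left, pow_add]
    push_cast
    field_simp

lemma two_pair_le_real (hk : 1 ≤ k) (hn : 4 ≤ n) (u v w z : Fin n) (huv : u ≠ v) (hwz : w ≠ z)
    (huw : u ≠ w) (huz : u ≠ z) (hvw : v ≠ w) (hvz : v ≠ z) :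
    (((Om n k).filter (fun H => deg H u = deg H v ∧ deg H w = deg H z)).card : ℝ) ≤
      2 ^ (n.choose k) * cc ((n - 4).choose (k - 1)) ^ 2 := by
  have h := two_pair_le hk u v w z huv hwz huw huz hvw hvz
  have h' := real_bound h (by have := mul_choose_le hk hn; omega)
  rw [pow_two]
  exact h'

lemma triple_le_real (hk : 1 ≤ k) (hn : 3 ≤ n) (u v w : Fin n) (huv : u ≠ v) (huw : u ≠ w)
    (hvw : v ≠ w) (c c' d d' : ℕ) :
    (((Om n k).filter (fun H => deg H u + c = deg H v + c' ∧ deg H u + d = deg H w + d')).card : ℝ)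
      ≤ 2 ^ (n.choose k) * bb ((n - 3).choose (k - 1)) ^ 2 := by
  have h := triple_le hk u v w huv huw hvw c c' d d'
  have h' := real_bound h (by have := mul_choose_le hk hn; omega)
  rw [pow_two]
  exact h'

/-- ordered pairs of distinct vertices of equal degree -/
def eqPairs (H : Finset (Finset (Fin n))) : Finset (Fin n × Fin n) :=
  (univ : Finset (Fin n)).offDiag.filter (fun p => deg H p.1 = deg H p.2)

lemma sum_card_eqPairs (hk : 1 ≤ k) :
    ∑ H ∈ Om n k, ((eqPairs H).card : ℝ) =
      (n : ℝ) * (n - 1) * (2 ^ (n.choose k) * cc ((n - 2).choose (k - 1))) := by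
  have h1 : ∀ H ∈ Om n k, ((eqPairs H).card : ℝ) =
      ∑ p ∈ (univ : Finset (Fin n)).offDiag, if deg H p.1 = deg H p.2 then (1 : ℝ) else 0 := by
    intro H _
    rw [eqPairs, card_filter]
    push_cast
    rfl
  rw [sum_congr rfl h1, sum_comm]
  have h2 : ∀ p ∈ (univ : Finset (Fin n)).offDiag,
      (∑ H ∈ Om n k, if deg H p.1 = deg H p.2 then (1 : ℝ) else 0) =
      2 ^ (n.choose k) * cc ((n - 2).choose (k - 1)) := by
    intro p hp
    rw [mem_offDiag] at hp
    rw [← pair_eq_real hk p.1 p.2 hp.2.2, card_filter]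
    push_cast
    rfl
  rw [sum_congr rfl h2, sum_const, offDiag_card, card_univ, Fintype.card_fin, nsmul_eq_mul]
  congr 1
  rcases Nat.eq_zero_or_pos n with rfl | hn
  · simp
  · rw [Nat.cast_sub (Nat.le_mul_of_pos_left n hn)]
    push_cast
    ring

lemma sum_sq_card_eqPairs (hk : 1 ≤ k) (hn : 4 ≤ n) :
    ∑ H ∈ Om n k, ((eqPairs H).card : ℝ) ^ 2 ≤
      (n : ℝ) * (n - 1) * (2 ^ (n.choose k) *
        ((n : ℝ) ^ 2 * cc ((n - 4).choose (k - 1)) ^ 2 + 2 * cc ((n - 2).choose (k - 1)) +
          4 * n * bb ((n - 3).choose (k - 1)) ^ 2)) := by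
  set T : ℝ := 2 ^ (n.choose k) with hT
  have hT0 : 0 < T := by positivity
  set a := cc ((n - 4).choose (k - 1)) ^ 2 with ha
  set b := cc ((n - 2).choose (k - 1)) with hb
  set c := bb ((n - 3).choose (k - 1)) ^ 2 with hc
  have ha0 : 0 ≤ a := sq_nonneg _
  have hb0 : 0 ≤ b := (cc_pos _).le
  have hc0 : 0 ≤ c := sq_nonneg _
  have h1 : ∀ H ∈ Om n k, ((eqPairs H).card : ℝ) ^ 2 =
      ∑ p ∈ (univ : Finset (Fin n)).offDiag, ∑ q ∈ (univ : Finset (Fin n)).offDiag,
        if deg H p.1 = deg H p.2 ∧ deg H q.1 = deg H q.2 then (1 : ℝ) else 0 := by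
    intro H _
    have : ((eqPairs H).card : ℝ) = ∑ p ∈ (univ : Finset (Fin n)).offDiag,
        if deg H p.1 = deg H p.2 then (1 : ℝ) else 0 := by
      rw [eqPairs, card_filter]
      push_cast
      rfl
    rw [pow_two, this, sum_mul_sum]
    apply sum_congr rfl
    intro p _
    apply sum_congr rfl
    intro q _
    by_cases hp : deg H p.1 = deg H p.2 <;> by_cases hq : deg H q.1 = deg H q.2 <;> simp [hp, hq]
  rw [sum_congr rfl h1, sum_comm]
  have h2 : ∀ p ∈ (univ : Finset (Fin n)).offDiag,
      (∑ H ∈ Om n k, ∑ q ∈ (univ : Finset (Fin n)).offDiag,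
        if deg H p.1 = deg H p.2 ∧ deg H q.1 = deg H q.2 then (1 : ℝ) else 0) ≤
      T * ((n : ℝ) ^ 2 * a + 2 * b + 4 * n * c) := by
    intro p hp
    rw [mem_offDiag] at hp
    obtain ⟨-, -, hp⟩ := hp
    rw [sum_comm]
    have h3 : ∀ q ∈ (univ : Finset (Fin n)).offDiag,
        (∑ H ∈ Om n k, if deg H p.1 = deg H p.2 ∧ deg H q.1 = deg H q.2 then (1 : ℝ) else 0) ≤
        T * a + T * (if q = p ∨ q = p.swap then b else 0) +
          T * (if q.1 = p.1 ∨ q.1 = p.2 ∨ q.2 = p.1 ∨ q.2 = p.2 then c else 0) := by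
      intro q hq
      rw [mem_offDiag] at hq
      obtain ⟨-, -, hq⟩ := hq
      have hcard : (∑ H ∈ Om n k, if deg H p.1 = deg H p.2 ∧ deg H q.1 = deg H q.2 then (1 : ℝ)
          else 0) =
          (((Om n k).filter (fun H => deg H p.1 = deg H p.2 ∧ deg H q.1 = deg H q.2)).card : ℝ) := by
        rw [card_filter]; push_cast; rfl
      rw [hcard]
      have hTa : 0 ≤ T * a := mul_nonneg hT0.le ha0
      have hTb : 0 ≤ T * b := mul_nonneg hT0.le hb0
      have hTc : 0 ≤ T * c := mul_nonneg hT0.le hc0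
      by_cases hmeet : q.1 = p.1 ∨ q.1 = p.2 ∨ q.2 = p.1 ∨ q.2 = p.2
      · by_cases hsame : q = p ∨ q = p.swap
        · rw [if_pos hmeet, if_pos hsame]
          have : (((Om n k).filter (fun H => deg H p.1 = deg H p.2 ∧
              deg H q.1 = deg H q.2)).card : ℝ) ≤ T * b := by
            refine le_trans ?_ (by simpa using one_pair_le_real hk p.1 p.2 hp 0 0)
            norm_cast
            apply card_le_card
            intro H hH
            rw [mem_filter] at hH ⊢
            exact ⟨hH.1, by simpa using hH.2.1⟩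
          linarith
        · rw [if_pos hmeet, if_neg hsame]
          push Not at hsame
          have : (((Om n k).filter (fun H => deg H p.1 = deg H p.2 ∧
              deg H q.1 = deg H q.2)).card : ℝ) ≤ T * c := by
            have key : ∀ x y z : Fin n, x ≠ y → x ≠ z → y ≠ z →
                (∀ H : Finset (Finset (Fin n)), (deg H p.1 = deg H p.2 ∧ deg H q.1 = deg H q.2) →
                  (deg H x + 0 = deg H y + 0 ∧ deg H x + 0 = deg H z + 0)) →
                (((Om n k).filter (fun H => deg H p.1 = deg H p.2 ∧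
                  deg H q.1 = deg H q.2)).card : ℝ) ≤ T * c := by
              intro x y z hxy hxz hyz himp
              refine le_trans ?_ (triple_le_real hk (by omega) x y z hxy hxz hyz 0 0 0 0)
              norm_cast
              apply card_le_card
              intro H hH
              rw [mem_filter] at hH ⊢
              exact ⟨hH.1, himp H hH.2⟩
            obtain ⟨p1, p2⟩ := p
            obtain ⟨q1, q2⟩ := q
            simp only [ne_eq, Prod.mk.injEq, Prod.swap_prod_mk, not_and] at *
            rcases hmeet with h | h | h | h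
            · subst h
              exact key q1 p2 q2 hp hq (fun h => hsame.1 rfl h.symm) (fun H hH => by
                obtain ⟨h1, h2⟩ := hH; omega)
            · subst h
              exact key q1 p1 q2 (fun h => hp h.symm) hq (fun h => hsame.2 rfl h.symm)
                (fun H hH => by obtain ⟨h1, h2⟩ := hH; omega)
            · subst h
              exact key q2 p2 q1 hp (fun h => hq h.symm) (fun h => hsame.2 h.symm rfl)
                (fun H hH => by obtain ⟨h1, h2⟩ := hH; omega)
            · subst h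
              exact key q2 p1 q1 (fun h => hp h.symm) (fun h => hq h.symm)
                (fun h => hsame.1 h.symm rfl)
                (fun H hH => by obtain ⟨h1, h2⟩ := hH; omega)
          linarith
      · have hsame : ¬ (q = p ∨ q = p.swap) := by
          rintro (h | h)
          · exact hmeet (Or.inl (by rw [h]))
          · exact hmeet (Or.inr (Or.inl (by rw [h]; rfl)))
        rw [if_neg hmeet, if_neg hsame]
        push Not at hmeet
        have := two_pair_le_real hk hn p.1 p.2 q.1 q.2 hp hq (fun h => hmeet.1 h.symm)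
          (fun h => hmeet.2.2.1 h.symm) (fun h => hmeet.2.1 h.symm) (fun h => hmeet.2.2.2 h.symm)
        linarith
    refine (sum_le_sum h3).trans ?_
    rw [sum_add_distrib, sum_add_distrib, sum_const, ← mul_sum, ← mul_sum, ← sum_filter,
      ← sum_filter, sum_const, sum_const, nsmul_eq_mul, nsmul_eq_mul, nsmul_eq_mul]
    have c1 : ((univ : Finset (Fin n)).offDiag.card : ℝ) ≤ (n : ℝ) ^ 2 := by
      rw [offDiag_card, card_univ, Fintype.card_fin]
      have : n * n - n ≤ n ^ 2 := by rw [pow_two]; exact Nat.sub_le _ _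
      exact_mod_cast this
    have c2 : (((univ : Finset (Fin n)).offDiag.filter (fun q => q = p ∨ q = p.swap)).card : ℝ)
        ≤ 2 := by
      have : ((univ : Finset (Fin n)).offDiag.filter (fun q => q = p ∨ q = p.swap)).card ≤
          ({p, p.swap} : Finset (Fin n × Fin n)).card := by
        apply card_le_card
        intro q hq
        rw [mem_filter] at hq
        simpa using hq.2
      exact_mod_cast this.trans card_le_two
    have c3 : (((univ : Finset (Fin n)).offDiag.filter (fun q => q.1 = p.1 ∨ q.1 = p.2 ∨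
        q.2 = p.1 ∨ q.2 = p.2)).card : ℝ) ≤ 4 * n := by
      have : ((univ : Finset (Fin n)).offDiag.filter (fun q => q.1 = p.1 ∨ q.1 = p.2 ∨
        q.2 = p.1 ∨ q.2 = p.2)).card ≤
          ((({p.1, p.2} : Finset (Fin n)) ×ˢ (univ : Finset (Fin n))) ∪
            ((univ : Finset (Fin n)) ×ˢ ({p.1, p.2} : Finset (Fin n)))).card := by
        apply card_le_card
        intro q hq
        rw [mem_filter] at hq
        simp only [mem_union, mem_product, mem_insert, mem_singleton, mem_univ, and_true, true_and]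
        tauto
      have h4 : ((({p.1, p.2} : Finset (Fin n)) ×ˢ (univ : Finset (Fin n))) ∪
            ((univ : Finset (Fin n)) ×ˢ ({p.1, p.2} : Finset (Fin n)))).card ≤ 4 * n := by
        refine (card_union_le _ _).trans ?_
        rw [card_product, card_product, card_univ, Fintype.card_fin]
        have : ({p.1, p.2} : Finset (Fin n)).card ≤ 2 := card_le_two
        nlinarith
      exact_mod_cast this.trans h4
    have t1 : ((univ : Finset (Fin n)).offDiag.card : ℝ) * (T * a) ≤ (n : ℝ) ^ 2 * (T * a) :=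
      mul_le_mul_of_nonneg_right c1 (mul_nonneg hT0.le ha0)
    have t2 := mul_le_mul_of_nonneg_right c2 hb0
    have t3 := mul_le_mul_of_nonneg_right c3 hc0
    have t2' := mul_le_mul_of_nonneg_left t2 hT0.le
    have t3' := mul_le_mul_of_nonneg_left t3 hT0.le
    calc _ ≤ (n : ℝ) ^ 2 * (T * a) + T * (2 * b) + T * (4 * n * c) := by
            linarith
      _ = T * ((n : ℝ) ^ 2 * a + 2 * b + 4 * n * c) := by ring
  refine (sum_le_sum h2).trans ?_
  rw [sum_const, offDiag_card, card_univ, Fintype.card_fin, nsmul_eq_mul]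
  have hn0 : 0 < n := by omega
  rw [Nat.cast_sub (Nat.le_mul_of_pos_left n hn0)]
  push_cast
  apply le_of_eq
  ring

/-- Chebyshev. -/
lemma irregular_bound (hk : 1 ≤ k) (hn : 4 ≤ n) :
    (((Om n k).filter (fun H => eqPairs H = ∅)).card : ℝ) *
      ((n : ℝ) * (n - 1) * cc ((n - 2).choose (k - 1)) ^ 2) ≤
      2 ^ (n.choose k) *
        ((n : ℝ) ^ 2 * cc ((n - 4).choose (k - 1)) ^ 2 + 2 * cc ((n - 2).choose (k - 1)) +
          4 * n * bb ((n - 3).choose (k - 1)) ^ 2
          - (n : ℝ) * (n - 1) * cc ((n - 2).choose (k - 1)) ^ 2) := by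
  set T : ℝ := 2 ^ (n.choose k) with hT
  set b := cc ((n - 2).choose (k - 1)) with hb
  set N : ℝ := (n : ℝ) * (n - 1) with hN
  have hn' : (4 : ℝ) ≤ n := by exact_mod_cast hn
  have hN0 : 0 < N := by rw [hN]; nlinarith
  set μ : ℝ := N * b with hμ
  have hS1 := sum_card_eqPairs (n := n) hk
  have hS2 := sum_sq_card_eqPairs hk hn
  have hZ : (((Om n k).filter (fun H => eqPairs H = ∅)).card : ℝ) * μ ^ 2 ≤
      ∑ H ∈ Om n k, (((eqPairs H).card : ℝ) - μ) ^ 2 := by
    calc (((Om n k).filter (fun H => eqPairs H = ∅)).card : ℝ) * μ ^ 2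
        = ∑ H ∈ (Om n k).filter (fun H => eqPairs H = ∅), μ ^ 2 := by
          rw [sum_const, nsmul_eq_mul]
      _ = ∑ H ∈ (Om n k).filter (fun H => eqPairs H = ∅), (((eqPairs H).card : ℝ) - μ) ^ 2 := by
          apply sum_congr rfl
          intro H hH
          rw [mem_filter] at hH
          rw [hH.2]
          simp
      _ ≤ ∑ H ∈ Om n k, (((eqPairs H).card : ℝ) - μ) ^ 2 := by
          apply sum_le_sum_of_subset_of_nonneg (filter_subset _ _)
          intro H _ _
          positivity
  have hexp : ∑ H ∈ Om n k, (((eqPairs H).card : ℝ) - μ) ^ 2 =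
      ∑ H ∈ Om n k, ((eqPairs H).card : ℝ) ^ 2 - 2 * μ * ∑ H ∈ Om n k, ((eqPairs H).card : ℝ) +
        T * μ ^ 2 := by
    have : ∀ H ∈ Om n k, (((eqPairs H).card : ℝ) - μ) ^ 2 =
        ((eqPairs H).card : ℝ) ^ 2 - 2 * μ * ((eqPairs H).card : ℝ) + μ ^ 2 := by
      intro H _; ring
    rw [sum_congr rfl this, sum_add_distrib, sum_sub_distrib, ← mul_sum, sum_const, card_Om,
      nsmul_eq_mul]
    push_cast
    rfl
  rw [hexp, hS1] at hZ
  have hfin : (((Om n k).filter (fun H => eqPairs H = ∅)).card : ℝ) * μ ^ 2 ≤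
      N * (T * ((n : ℝ) ^ 2 * cc ((n - 4).choose (k - 1)) ^ 2 + 2 * b +
          4 * n * bb ((n - 3).choose (k - 1)) ^ 2)) - T * μ ^ 2 := by
    refine hZ.trans ?_
    have : N * (T * b) = T * μ := by rw [hμ]; ring
    rw [this]
    linarith [hS2]
  have hdiv : N * ((((Om n k).filter (fun H => eqPairs H = ∅)).card : ℝ) * (N * b ^ 2)) ≤
      N * (T * ((n : ℝ) ^ 2 * cc ((n - 4).choose (k - 1)) ^ 2 + 2 * b +
          4 * n * bb ((n - 3).choose (k - 1)) ^ 2 - N * b ^ 2)) := by
    rw [hμ] at hfin
    linarith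
  exact le_of_mul_le_mul_left hdiv hN0

end Run7.h198
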