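import Pool.Agent.Run7.h198.SecondMoment

/-! Switching argument: a positive fraction of 5-uniform hypergraphs is irregular. -/

set_option autoImplicit false

namespace Run7.h198

open Finset

variable {n k : ℕ}

/-- ordered pairs of distinct vertices whose degrees differ by at most `R` -/
def near (R : ℕ) (H : Finset (Finset (Fin n))) : Finset (Fin n × Fin n) :=
  (univ : Finset (Fin n)).offDiag.filter
    (fun p => deg H p.1 ≤ deg H p.2 + R ∧ deg H p.2 ≤ deg H p.1 + R)

lemma mem_near {R : ℕ} {H : Finset (Finset (Fin n))} {x y : Fin n} :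
    (x, y) ∈ near R H ↔ x ≠ y ∧ deg H x ≤ deg H y + R ∧ deg H y ≤ deg H x + R := by
  simp [near, mem_filter, mem_offDiag]

lemma near_symm {R : ℕ} {H : Finset (Finset (Fin n))} {x y : Fin n} (h : (x, y) ∈ near R H) :
    (y, x) ∈ near R H := by
  rw [mem_near] at h ⊢
  exact ⟨h.1.symm, h.2.2, h.2.1⟩

lemma near_mono {R R' : ℕ} (hR : R ≤ R') (H : Finset (Finset (Fin n))) :
    near R H ⊆ near R' H := by
  rintro ⟨x, y⟩ h
  rw [mem_near] at h ⊢
  exact ⟨h.1, by omega, by omega⟩

/-- no vertex has two near partners -/
def noTriple (R : ℕ) (H : Finset (Finset (Fin n))) : Prop :=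
  ∀ u v w : Fin n, (u, v) ∈ near R H → (u, w) ∈ near R H → v = w

instance (R : ℕ) : DecidablePred (noTriple (n := n) R) := fun H => by
  unfold noTriple; infer_instance

/-- the good hypergraphs -/
def Good (n k j R L : ℕ) : Finset (Finset (Finset (Fin n))) :=
  (Om n k).filter (fun H => (near 0 H).card ≤ j ∧ (near R H).card ≤ L ∧ noTriple R H)

/-- the irregular hypergraphs -/
def Irr (n k : ℕ) : Finset (Finset (Finset (Fin n))) :=
  (Om n k).filter (fun H => near 0 H = ∅)

lemma deg_insert {H : Finset (Finset (Fin n))} {e : Finset (Fin n)} (he : e ∉ H) (x : Fin n) :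
    deg (insert e H) x = deg H x + if x ∈ e then 1 else 0 := by
  unfold deg
  rw [filter_insert]
  split_ifs with h
  · rw [card_insert_of_notMem]
    intro h'
    exact he (mem_filter.1 h').1
  · rfl

lemma symmDiff_singleton_of_notMem {H : Finset (Finset (Fin n))} {e : Finset (Fin n)}
    (he : e ∉ H) : symmDiff H {e} = insert e H := by
  ext f
  simp only [mem_symmDiff, mem_singleton, mem_insert]
  constructor
  · rintro (⟨h, -⟩ | ⟨h, -⟩)
    · exact Or.inr h
    · exact Or.inl h
  · rintro (rfl | h)
    · exact Or.inr ⟨rfl, he⟩
    · exact Or.inl ⟨h, fun h' => he (h' ▸ h)⟩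

/-- the effect of flipping one edge -/
lemma deg_flip (H : Finset (Finset (Fin n))) (e : Finset (Fin n)) :
    (∀ x, deg (symmDiff H {e}) x = deg H x + if x ∈ e then 1 else 0) ∨
    (∀ x, deg (symmDiff H {e}) x + (if x ∈ e then 1 else 0) = deg H x) := by
  by_cases he : e ∈ H
  · right
    intro x
    have h1 : e ∉ symmDiff H {e} := by
      simp [mem_symmDiff, he]
    have h2 : symmDiff (symmDiff H {e}) {e} = H := symmDiff_symmDiff_cancel_right _ _
    have h3 := symmDiff_singleton_of_notMem h1
    rw [h2] at h3
    have h4 := deg_insert h1 x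
    rw [← h3] at h4
    exact h4.symm
  · left
    intro x
    rw [symmDiff_singleton_of_notMem he]
    exact deg_insert he x

lemma near_flip (R : ℕ) (H : Finset (Finset (Fin n))) (e : Finset (Fin n)) :
    near R (symmDiff H {e}) ⊆ near (R + 1) H := by
  rintro ⟨x, y⟩ h
  rw [mem_near] at h ⊢
  obtain ⟨h1, h2, h3⟩ := h
  refine ⟨h1, ?_, ?_⟩
  · rcases deg_flip H e with hf | hf
    · have hx := hf x; have hy := hf y
      split_ifs at hx hy <;> omega
    · have hx := hf x; have hy := hf y
      split_ifs at hx hy <;> omega
  · rcases deg_flip H e with hf | hf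
    · have hx := hf x; have hy := hf y
      split_ifs at hx hy <;> omega
    · have hx := hf x; have hy := hf y
      split_ifs at hx hy <;> omega

/-- vertices having a near partner -/
def bad (R : ℕ) (H : Finset (Finset (Fin n))) : Finset (Fin n) := (near R H).image Prod.fst

lemma card_bad_le (R : ℕ) (H : Finset (Finset (Fin n))) : (bad R H).card ≤ (near R H).card :=
  card_image_le

lemma mem_bad_of_near {R : ℕ} {H : Finset (Finset (Fin n))} {x y : Fin n}
    (h : (x, y) ∈ near R H) : x ∈ bad R H := mem_image.2 ⟨(x, y), h, rfl⟩

/-- One switching step. -/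
lemma flip_good {j R L : ℕ} (H : Finset (Finset (Fin n)))
    (hH : H ∈ Good n k (j + 1) (R + 1) L) (u v : Fin n) (huv : (u, v) ∈ near 0 H)
    (e : Finset (Fin n)) (he : e ∈ Ex k (bad (R + 1) H) u) :
    symmDiff H {e} ∈ Good n k j R L ∧ (u, v) ∈ near 1 (symmDiff H {e}) ∧ u ∈ e := by
  rw [Good, mem_filter] at hH
  obtain ⟨hHK, hj, hL, hT⟩ := hH
  have huvR : (u, v) ∈ near (R + 1) H := near_mono (by omega) H huv
  have hub : u ∈ bad (R + 1) H := mem_bad_of_near huvR
  have hvb : v ∈ bad (R + 1) H := mem_bad_of_near (near_symm huvR)
  have hmem : ∀ x ∈ bad (R + 1) H, (x ∈ e ↔ x = u) := fun x hx => mem_of_mem_Ex he hx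
  have hue : u ∈ e := (hmem u hub).2 rfl
  have hne : u ≠ v := (mem_near.1 huv).1
  have hve : v ∉ e := fun h => hne ((hmem v hvb).1 h).symm
  have hd : deg H u = deg H v := by
    have := mem_near.1 huv
    omega
  have hsub := near_flip R H e
  refine ⟨?_, ?_, hue⟩
  · rw [Good, mem_filter]
    refine ⟨?_, ?_, ?_, ?_⟩
    · rw [mem_powerset] at hHK ⊢
      intro f hf
      rw [mem_symmDiff, mem_singleton] at hf
      rcases hf with ⟨h, -⟩ | ⟨h, -⟩
      · exact hHK h
      · rw [h]; exact Ex_subset _ _ he
    · -- fewer equal pairs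
      have hss : near 0 (symmDiff H {e}) ⊆ (near 0 H).erase (u, v) := by
        rintro ⟨x, y⟩ hxy
        have hxyR : (x, y) ∈ near (R + 1) H := hsub (near_mono (by omega) _ hxy)
        have hxb : x ∈ bad (R + 1) H := mem_bad_of_near hxyR
        have hyb : y ∈ bad (R + 1) H := mem_bad_of_near (near_symm hxyR)
        have hx := hmem x hxb
        have hy := hmem y hyb
        rw [mem_near] at hxy
        obtain ⟨hxyne, h1, h2⟩ := hxy
        have heq : deg (symmDiff H {e}) x = deg (symmDiff H {e}) y := by omega
        by_cases hxu : x = u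
        · subst hxu
          have : v = y := hT x v y huvR hxyR
          subst this
          exfalso
          rcases deg_flip H e with hf | hf
          · have hx' := hf x; have hy' := hf v
            rw [if_pos hue] at hx'; rw [if_neg hve] at hy'
            omega
          · have hx' := hf x; have hy' := hf v
            rw [if_pos hue] at hx'; rw [if_neg hve] at hy'
            omega
        · by_cases hyu : y = u
          · subst hyu
            have : v = x := hT y v x huvR (near_symm hxyR)
            subst this
            exfalso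
            rcases deg_flip H e with hf | hf
            · have hx' := hf y; have hy' := hf v
              rw [if_pos hue] at hx'; rw [if_neg hve] at hy'
              omega
            · have hx' := hf y; have hy' := hf v
              rw [if_pos hue] at hx'; rw [if_neg hve] at hy'
              omega
          · have hxe : x ∉ e := fun h => hxu (hx.1 h)
            have hye : y ∉ e := fun h => hyu (hy.1 h)
            rw [mem_erase]
            refine ⟨fun h => hxu (by simpa using congrArg Prod.fst h), ?_⟩
            rw [mem_near]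
            refine ⟨hxyne, ?_, ?_⟩
            · rcases deg_flip H e with hf | hf
              · have hx' := hf x; have hy' := hf y
                rw [if_neg hxe] at hx'; rw [if_neg hye] at hy'
                omega
              · have hx' := hf x; have hy' := hf y
                rw [if_neg hxe] at hx'; rw [if_neg hye] at hy'
                omega
            · rcases deg_flip H e with hf | hf
              · have hx' := hf x; have hy' := hf y
                rw [if_neg hxe] at hx'; rw [if_neg hye] at hy'
                omega
              · have hx' := hf x; have hy' := hf y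
                rw [if_neg hxe] at hx'; rw [if_neg hye] at hy'
                omega
      have := card_le_card hss
      rw [card_erase_of_mem huv] at this
      omega
    · exact (card_le_card hsub).trans hL
    · intro a b c hab hac
      exact hT a b c (hsub hab) (hsub hac)
  · rw [mem_near]
    refine ⟨hne, ?_, ?_⟩
    · rcases deg_flip H e with hf | hf
      · have hx' := hf u; have hy' := hf v
        rw [if_pos hue] at hx'; rw [if_neg hve] at hy'
        omega
      · have hx' := hf u; have hy' := hf v
        rw [if_pos hue] at hx'; rw [if_neg hve] at hy'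
        omega
    · rcases deg_flip H e with hf | hf
      · have hx' := hf u; have hy' := hf v
        rw [if_pos hue] at hx'; rw [if_neg hve] at hy'
        omega
      · have hx' := hf u; have hy' := hf v
        rw [if_pos hue] at hx'; rw [if_neg hve] at hy'
        omega

/-- the edges containing a vertex that has a partner at distance at most one -/
def rev (k : ℕ) (H : Finset (Finset (Fin n))) : Finset (Finset (Fin n)) :=
  (bad 1 H).biUnion (fun x => Ex k {x} x)

lemma card_rev_le (hk : 1 ≤ k) {R L : ℕ} (hR : 1 ≤ R) (H : Finset (Finset (Fin n)))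
    (hL : (near R H).card ≤ L) : (rev k H).card ≤ L * (n - 1).choose (k - 1) := by
  refine card_biUnion_le.trans ?_
  have : ∀ x ∈ bad 1 H, (Ex k ({x} : Finset (Fin n)) x).card = (n - 1).choose (k - 1) := by
    intro x _
    rw [card_Ex _ _ (mem_singleton_self x) hk, card_singleton]
  rw [sum_congr rfl this, sum_const, smul_eq_mul]
  apply Nat.mul_le_mul_right
  exact ((card_bad_le 1 H).trans (card_le_card (near_mono hR H))).trans hL

lemma step_count (hk : 1 ≤ k) {j R L : ℕ} (hR : 1 ≤ R) :
    ((Good n k (j + 1) (R + 1) L).filter (fun H => near 0 H ≠ ∅)).card *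
        (n - L).choose (k - 1) ≤
      (Good n k j R L).card * (L * (n - 1).choose (k - 1)) := by
  classical
  set B := (Good n k (j + 1) (R + 1) L).filter (fun H => near 0 H ≠ ∅) with hB
  -- choose an equal pair
  have hex : ∀ H : Finset (Finset (Fin n)), ∃ p : Option (Fin n × Fin n),
      (near 0 H ≠ ∅ → ∃ q ∈ near 0 H, p = some q) := by
    intro H
    by_cases h : near 0 H ≠ ∅
    · obtain ⟨q, hq⟩ := nonempty_iff_ne_empty.2 h
      exact ⟨some q, fun _ => ⟨q, hq, rfl⟩⟩
    · exact ⟨none, fun h' => absurd h' h⟩
  choose f hf using hex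
  let G : Finset (Finset (Fin n)) → Finset (Finset (Fin n)) := fun H =>
    match f H with
    | some p => Ex k (bad (R + 1) H) p.1
    | none => ∅
  have hG : ∀ H ∈ B, ∃ u v, (u, v) ∈ near 0 H ∧ G H = Ex k (bad (R + 1) H) u := by
    intro H hH
    rw [hB, mem_filter] at hH
    obtain ⟨⟨u, v⟩, hq, hfq⟩ := hf H hH.2
    refine ⟨u, v, hq, ?_⟩
    show (match f H with
      | some p => Ex k (bad (R + 1) H) p.1
      | none => ∅) = _
    rw [hfq]
  have hGcard : ∀ H ∈ B, (n - L).choose (k - 1) ≤ (G H).card := by
    intro H hH
    obtain ⟨u, v, huv, hGe⟩ := hG H hH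
    rw [hB, mem_filter, Good, mem_filter] at hH
    have hub : u ∈ bad (R + 1) H := mem_bad_of_near (near_mono (Nat.zero_le _) H huv)
    rw [hGe, card_Ex _ _ hub hk]
    apply Nat.choose_le_choose
    have := (card_bad_le (R + 1) H).trans hH.1.2.2.1
    omega
  calc B.card * (n - L).choose (k - 1) = ∑ _H ∈ B, (n - L).choose (k - 1) := by
        rw [sum_const, smul_eq_mul]
    _ ≤ ∑ H ∈ B, (G H).card := sum_le_sum hGcard
    _ = (B.sigma G).card := (card_sigma _ _).symm
    _ ≤ ((Good n k j R L).sigma (fun H => rev k H)).card := by
        apply card_le_card_of_injOn (fun q => ⟨symmDiff q.1 {q.2}, q.2⟩)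
        · rintro ⟨H, e⟩ hq
          simp only [coe_sigma, Set.mem_sigma_iff, mem_coe] at hq
          obtain ⟨hHB, he⟩ := hq
          obtain ⟨u, v, huv, hGe⟩ := hG H hHB
          rw [hGe] at he
          rw [hB, mem_filter] at hHB
          obtain ⟨h1, h2, h3⟩ := flip_good H hHB.1 u v huv e he
          simp only [coe_sigma, Set.mem_sigma_iff, mem_coe]
          refine ⟨h1, ?_⟩
          rw [rev, mem_biUnion]
          refine ⟨u, mem_bad_of_near h2, ?_⟩
          rw [mem_Ex]
          refine ⟨(mem_Ex.1 he).1, ?_⟩
          ext y
          simp only [mem_inter, mem_singleton]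
          constructor
          · exact fun h => h.2
          · rintro rfl; exact ⟨h3, rfl⟩
        · rintro ⟨H, e⟩ _ ⟨H', e'⟩ _ heq
          simp only [Sigma.mk.injEq, heq_eq_eq] at heq
          obtain ⟨h1, h2⟩ := heq
          subst h2
          have := symmDiff_left_injective ({e} : Finset (Finset (Fin n))) h1
          rw [this]
    _ = ∑ H ∈ Good n k j R L, (rev k H).card := card_sigma _ _
    _ ≤ ∑ _H ∈ Good n k j R L, L * (n - 1).choose (k - 1) := by
        apply sum_le_sum
        intro H hH
        rw [Good, mem_filter] at hH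
        exact card_rev_le hk hR H hH.2.2.1
    _ = (Good n k j R L).card * (L * (n - 1).choose (k - 1)) := by
        rw [sum_const, smul_eq_mul]

/-- constants of the recursion -/
def CC (L : ℕ) : ℕ → ℕ
  | 0 => 1
  | (j + 1) => 1 + 2 * L * CC L j

lemma good_le_irr (hk : 1 ≤ k) (L : ℕ)
    (hn : (n - 1).choose (k - 1) ≤ 2 * (n - L).choose (k - 1))
    (hpos : 0 < (n - L).choose (k - 1)) (j : ℕ) :
    (Good n k j (j + 1) L).card ≤ CC L j * (Irr n k).card := by
  induction j with
  | zero =>
    simp only [CC, one_mul]
    apply card_le_card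
    intro H hH
    rw [Good, mem_filter] at hH
    rw [Irr, mem_filter]
    exact ⟨hH.1, card_eq_zero.1 (Nat.le_zero.1 hH.2.1)⟩
  | succ j ih =>
    have hstep := step_count (n := n) (k := k) (j := j) (R := j + 1) (L := L) hk (by omega)
    set B := (Good n k (j + 1) (j + 1 + 1) L).filter (fun H => near 0 H ≠ ∅) with hB
    have hBle : B.card ≤ 2 * L * (Good n k j (j + 1) L).card := by
      have : B.card * (n - L).choose (k - 1) ≤
          (2 * L * (Good n k j (j + 1) L).card) * (n - L).choose (k - 1) := by
        refine hstep.trans ?_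
        calc (Good n k j (j + 1) L).card * (L * (n - 1).choose (k - 1)) ≤
            (Good n k j (j + 1) L).card * (L * (2 * (n - L).choose (k - 1))) := by gcongr
          _ = _ := by ring
      exact Nat.le_of_mul_le_mul_right this hpos
    have hsplit := card_filter_add_card_filter_not (s := Good n k (j + 1) (j + 1 + 1) L)
      (fun H => near 0 H ≠ ∅)
    rw [← hB] at hsplit
    have hirr : ((Good n k (j + 1) (j + 1 + 1) L).filter (fun H => ¬ near 0 H ≠ ∅)).card ≤
        (Irr n k).card := by
      apply card_le_card
      intro H hH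
      rw [mem_filter, Good, mem_filter] at hH
      rw [Irr, mem_filter]
      exact ⟨hH.1.1, not_not.1 hH.2⟩
    calc (Good n k (j + 1) (j + 1 + 1) L).card ≤ 2 * L * (Good n k j (j + 1) L).card +
        (Irr n k).card := by omega
      _ ≤ 2 * L * (CC L j * (Irr n k).card) + (Irr n k).card := by gcongr
      _ = CC L (j + 1) * (Irr n k).card := by simp only [CC]; ring

end Run7.h198
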