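import Mathlib

/-!
# Edges of bipartite graphs with given one-sided total domination numbers
-/

set_option autoImplicit false
set_option linter.unusedSectionVars false

namespace Run7.h198.TD

open Finset

variable {V : Type*} [DecidableEq V]

/-- the members of `C` dominate the members of `A` -/
def Cov (r : V → V → Prop) (A C : Finset V) : Prop := ∀ x ∈ A, ∃ y ∈ C, r x y

/-- `b` is the least number of members of `B` that dominate `A` -/
def IsNum (r : V → V → Prop) (A B : Finset V) (b : ℕ) : Prop :=
  (∃ C ⊆ B, C.card = b ∧ Cov r A C) ∧ ∀ C ⊆ B, Cov r A C → b ≤ C.card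

open Classical in
/-- number of edges between `A` and `B` -/
noncomputable def m (r : V → V → Prop) (A B : Finset V) : ℕ := ∑ x ∈ A, (B.filter (r x)).card

open Classical in
theorem m_flip (r : V → V → Prop) (A B : Finset V) : m r A B = m (flip r) B A := by
  unfold m
  exact Finset.sum_card_bipartiteAbove_eq_sum_card_bipartiteBelow r

theorem exists_num {r : V → V → Prop} {A B : Finset V} (h : Cov r A B) : ∃ b, IsNum r A B b := by
  classical
  have hex : ∃ b, ∃ C ⊆ B, C.card = b ∧ Cov r A C := ⟨B.card, B, Subset.refl B, rfl, h⟩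
  refine ⟨Nat.find hex, Nat.find_spec hex, fun C hC hc => Nat.find_min' hex ⟨C, hC, rfl, hc⟩⟩

open Classical in
theorem complete {r : V → V → Prop} {A B : Finset V} {b : ℕ} (hb : IsNum r A B b)
    (hn : Cov r A B) (C : Finset V) (hC : C ⊆ B) :
    b ≤ C.card + (A.filter (fun x => ¬ ∃ y ∈ C, r x y)).card := by
  choose! f hf1 hf2 using hn
  have h := hb.2 (C ∪ (A.filter (fun x => ¬ ∃ y ∈ C, r x y)).image f) (by
    intro y hy
    rw [mem_union, mem_image] at hy
    rcases hy with hy | ⟨x, hx, rfl⟩
    · exact hC hy
    · rw [mem_filter] at hx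
      exact hf1 x hx.1) (by
    intro x hx
    by_cases h : ∃ y ∈ C, r x y
    · obtain ⟨y, hy, hr⟩ := h
      exact ⟨y, mem_union_left _ hy, hr⟩
    · exact ⟨f x, mem_union_right _ (mem_image_of_mem f (mem_filter.2 ⟨hx, h⟩)), hf2 x hx⟩)
  refine h.trans ((card_union_le _ _).trans ?_)
  have := card_image_le (s := A.filter (fun x => ¬ ∃ y ∈ C, r x y)) (f := f)
  omega

theorem num_le {r : V → V → Prop} {A B : Finset V} {b : ℕ} (hb : IsNum r A B b)
    (hn : Cov r A B) : b ≤ A.card := by
  classical
  have h := complete hb hn ∅ (empty_subset _)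
  have h2 := card_filter_le A (fun x => ¬ ∃ y ∈ (∅ : Finset V), r x y)
  rw [card_empty] at h
  omega

theorem num_le' {r : V → V → Prop} {A B : Finset V} {b : ℕ} (hb : IsNum r A B b) :
    b ≤ B.card := by
  obtain ⟨C, hC, h1, -⟩ := hb.1
  rw [← h1]
  exact card_le_card hC

theorem num_pos {r : V → V → Prop} {A B : Finset V} {b : ℕ} (hb : IsNum r A B b)
    (hA : A.Nonempty) : 1 ≤ b := by
  obtain ⟨C, hC, h1, h2⟩ := hb.1
  obtain ⟨x, hx⟩ := hA
  obtain ⟨y, hy, -⟩ := h2 x hx
  rw [← h1]
  exact card_pos.2 ⟨y, hy⟩

open Classical in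
/-- the degree of a member of `B` -/
theorem deg_le {r : V → V → Prop} {A B : Finset V} {b : ℕ} (hb : IsNum r A B b)
    (hn : Cov r A B) {z : V} (hz : z ∈ B) :
    (A.filter (fun x => r x z)).card + b ≤ A.card + 1 := by
  have h := complete hb hn {z} (singleton_subset_iff.2 hz)
  have h1 : (A.filter (fun x => ¬ ∃ y ∈ ({z} : Finset V), r x y)) =
      A.filter (fun x => ¬ r x z) := by
    apply filter_congr
    intro x _
    simp
  rw [h1, card_singleton] at h
  have h2 := card_filter_add_card_filter_not (s := A) (fun x => r x z)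
  omega

open Classical in
/-- the main estimate: `x` is a member of `A` of largest degree and `C` dominates `A ∖ {x}` -/
theorem critical {r : V → V → Prop} {A B : Finset V} {b : ℕ} (hb : IsNum r A B b)
    (hn : Cov r A B) {x : V} (hx : x ∈ A)
    (hmax : ∀ t ∈ A, (B.filter (r t)).card ≤ (B.filter (r x)).card)
    {C : Finset V} (hC : C ⊆ B) (hcard : C.card + 1 = b) (hcov : Cov r (A.erase x) C)
    {u v : ℕ} (hu : A.card + 1 = u + b) (hv : B.card + 1 = v + b) :
    m r A B + 1 ≤ u * v + A.card := by
  -- the columns of `C` do not contain `x`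
  have hxC : ∀ y ∈ C, ¬ r x y := by
    intro y hy hr
    have := hb.2 C hC (by
      intro t ht
      by_cases htx : t = x
      · rw [htx]; exact ⟨y, hy, hr⟩
      · exact hcov t (mem_erase.2 ⟨htx, ht⟩))
    omega
  set N := B.filter (r x) with hN
  set R := (B.filter (fun y => ¬ r x y)) \ C with hR
  have hCR : C ⊆ B.filter (fun y => ¬ r x y) := by
    intro y hy
    exact mem_filter.2 ⟨hC hy, hxC y hy⟩
  -- split of the sum over the columns
  have hsplit : ∀ f : V → ℕ, ∑ y ∈ B, f y = ∑ y ∈ N, f y + (∑ y ∈ C, f y + ∑ y ∈ R, f y) := by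
    intro f
    rw [← sum_filter_add_sum_filter_not B (r x) f, ← sum_sdiff hCR, add_comm (∑ y ∈ C, f y)]
  have hcardB : B.card = N.card + (C.card + R.card) := by
    have := hsplit (fun _ => 1)
    simpa using this
  -- multiplicities in `C`
  set e : V → ℕ := fun t => (C.filter (r t)).card with he
  have hex : e x = 0 := by
    rw [he]
    simp only [card_eq_zero, filter_eq_empty_iff]
    intro y hy
    exact hxC y hy
  have he1 : ∀ t ∈ A, t ≠ x → 1 ≤ e t := by
    intro t ht htx
    obtain ⟨y, hy, hr⟩ := hcov t (mem_erase.2 ⟨htx, ht⟩)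
    exact card_pos.2 ⟨y, mem_filter.2 ⟨hy, hr⟩⟩
  -- bound for the degree of `z ∈ N`
  have hdegz : ∀ z ∈ N, (A.filter (fun t => r t z)).card +
      (A.filter (fun t => ¬ r t z ∧ 2 ≤ e t)).card ≤ u := by
    intro z hz
    rw [hN, mem_filter] at hz
    -- private rows
    have hpriv : ∀ y ∈ C, ∃ t, t ∈ A ∧ ¬ r t z ∧ r t y ∧ ∀ y' ∈ C, r t y' → y' = y := by
      intro y hy
      by_contra hcon
      push Not at hcon
      have h1 := hb.2 (insert z (C.erase y)) (by
        intro w hw
        rw [mem_insert] at hw
        rcases hw with rfl | hw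
        · exact hz.1
        · exact hC (mem_of_mem_erase hw)) (by
        intro t ht
        by_cases h2 : r t z
        · exact ⟨z, mem_insert_self _ _, h2⟩
        · have htx : t ≠ x := by
            rintro rfl
            exact h2 hz.2
          obtain ⟨y1, hy1, hr1⟩ := hcov t (mem_erase.2 ⟨htx, ht⟩)
          by_cases h3 : y1 = y
          · subst h3
            obtain ⟨y', hy', hr', hne⟩ := hcon t ht h2 hr1
            exact ⟨y', mem_insert_of_mem (mem_erase.2 ⟨hne, hy'⟩), hr'⟩
          · exact ⟨y1, mem_insert_of_mem (mem_erase.2 ⟨h3, hy1⟩), hr1⟩)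
      have h2 := card_insert_le z (C.erase y)
      have h3 := card_erase_of_mem hy
      have h4 : 0 < C.card := card_pos.2 ⟨y, hy⟩
      omega
    choose! g hg1 hg2 hg3 hg4 using hpriv
    have hinj : C.card ≤ (A.filter (fun t => ¬ r t z ∧ e t = 1)).card := by
      apply card_le_card_of_injOn g
      · intro y hy
        rw [mem_coe] at hy
        rw [mem_coe, mem_filter]
        refine ⟨hg1 y hy, hg2 y hy, ?_⟩
        rw [he]
        simp only
        rw [card_eq_one]
        refine ⟨y, ?_⟩
        ext y'
        rw [mem_filter, mem_singleton]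
        constructor
        · rintro ⟨h1, h2⟩
          exact hg4 y hy y' h1 h2
        · rintro rfl
          exact ⟨hy, hg3 _ hy⟩
      · intro y hy y' hy' h
        rw [mem_coe] at hy hy'
        have h1 := hg3 y hy
        rw [h] at h1
        exact hg4 y' hy' y hy h1
    have h1 := card_filter_add_card_filter_not (s := A) (fun t => r t z)
    have h2 : (A.filter (fun t => ¬ r t z ∧ e t = 1)).card +
        (A.filter (fun t => ¬ r t z ∧ 2 ≤ e t)).card ≤ (A.filter (fun t => ¬ r t z)).card := by
      rw [← card_union_of_disjoint]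
      · apply card_le_card
        intro t ht
        rw [mem_union, mem_filter, mem_filter] at ht
        rw [mem_filter]
        rcases ht with h | h
        · exact ⟨h.1, h.2.1⟩
        · exact ⟨h.1, h.2.1⟩
      · rw [disjoint_left]
        intro t ht ht'
        rw [mem_filter] at ht ht'
        omega
    omega
  -- the sum over `N`
  have hsumN : ∑ z ∈ N, (A.filter (fun t => r t z)).card +
      ∑ z ∈ N, (A.filter (fun t => ¬ r t z ∧ 2 ≤ e t)).card ≤ N.card * u := by
    rw [← sum_add_distrib, ← smul_eq_mul, ← sum_const]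
    exact sum_le_sum hdegz
  -- double counting of the missed pairs
  have hdouble : ∑ z ∈ N, (A.filter (fun t => ¬ r t z ∧ 2 ≤ e t)).card =
      ∑ t ∈ A, (N.filter (fun z => ¬ r t z ∧ 2 ≤ e t)).card :=
    (Finset.sum_card_bipartiteAbove_eq_sum_card_bipartiteBelow
      (s := A) (t := N) (fun t z => ¬ r t z ∧ 2 ≤ e t)).symm
  have hrow : ∀ t ∈ A, e t ≤ (N.filter (fun z => ¬ r t z ∧ 2 ≤ e t)).card +
      (if t = x then 0 else 1) := by
    intro t ht
    by_cases htx : t = x
    · rw [if_pos htx, htx, hex]
      omega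
    · rw [if_neg htx]
      by_cases h2 : 2 ≤ e t
      · have h3 : N.filter (fun z => ¬ r t z ∧ 2 ≤ e t) = N.filter (fun z => ¬ r t z) := by
          apply filter_congr
          intro z _
          exact ⟨fun h => h.1, fun h => ⟨h, h2⟩⟩
        rw [h3]
        have h4 := card_filter_add_card_filter_not (s := N) (fun z => r t z)
        have h5 := hmax t ht
        have h6 : (N.filter (fun z => r t z)).card + e t ≤ (B.filter (r t)).card := by
          rw [he]
          simp only
          rw [← card_union_of_disjoint]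
          · apply card_le_card
            intro y hy
            rcases mem_union.1 hy with h | h
            · obtain ⟨h8, h9⟩ := mem_filter.1 h
              exact mem_filter.2 ⟨(mem_filter.1 h8).1, h9⟩
            · obtain ⟨h8, h9⟩ := mem_filter.1 h
              exact mem_filter.2 ⟨hC h8, h9⟩
          · rw [disjoint_left]
            intro y hy hy'
            obtain ⟨h8, -⟩ := mem_filter.1 hy
            exact hxC y (mem_filter.1 hy').1 (mem_filter.1 h8).2
        have h7 : (B.filter (r x)).card = N.card := by rw [hN]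
        omega
      · omega
  have hsumrow : ∑ t ∈ A, e t ≤ ∑ t ∈ A, (N.filter (fun z => ¬ r t z ∧ 2 ≤ e t)).card +
      (A.card - 1) := by
    have h1 := sum_le_sum hrow
    rw [sum_add_distrib] at h1
    have h2 : ∑ t ∈ A, (if t = x then 0 else 1) = A.card - 1 := by
      rw [← card_erase_of_mem hx, card_eq_sum_ones, ← sum_erase_add A _ hx, if_pos rfl, add_zero]
      apply sum_congr rfl
      intro t ht
      rw [if_neg (ne_of_mem_erase ht)]
    omega
  have hsumC : ∑ y ∈ C, (A.filter (fun t => r t y)).card = ∑ t ∈ A, e t :=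
    (Finset.sum_card_bipartiteAbove_eq_sum_card_bipartiteBelow (s := A) (t := C) r).symm
  have hsumR : ∑ y ∈ R, (A.filter (fun t => r t y)).card ≤ R.card * u := by
    rw [← smul_eq_mul, ← sum_const]
    apply sum_le_sum
    intro y hy
    rw [hR, mem_sdiff, mem_filter] at hy
    have := deg_le hb hn hy.1.1
    omega
  have hm : m r A B = ∑ y ∈ B, (A.filter (fun t => r t y)).card := by
    rw [m_flip]
    rfl
  rw [hm, hsplit]
  have hA : 0 < A.card := card_pos.2 ⟨x, hx⟩
  have hvv : v = N.card + R.card := by omega
  have hmul : u * v = N.card * u + R.card * u := by rw [hvv]; ring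
  omega

end Run7.h198.TD
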