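import Pool.Agent.Run7.h198.TDBase

/-!
# Edges of bipartite graphs with given one-sided total domination numbers: the induction
-/

set_option autoImplicit false
set_option linter.unusedSectionVars false

namespace Run7.h198.TD

open Finset

variable {V : Type*} [DecidableEq V]

open Classical in
theorem m_erase {r : V → V → Prop} {A B : Finset V} {x : V} (hx : x ∈ A) :
    m r A B = m r (A.erase x) B + (B.filter (r x)).card := by
  unfold m
  exact (sum_erase_add A _ hx).symm

theorem key_mul {u d : ℕ} (hu : 1 ≤ u) (hd : 1 ≤ d) : u + d ≤ u * d + 1 := by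
  obtain ⟨u', rfl⟩ := Nat.exists_eq_add_of_le hu
  obtain ⟨d', rfl⟩ := Nat.exists_eq_add_of_le hd
  nlinarith [Nat.zero_le (u' * d')]

open Classical in
theorem main : ∀ (N : ℕ) (r : V → V → Prop) (A B : Finset V), A.card + B.card = N →
    A.Nonempty → Cov r A B → Cov (flip r) B A → ∀ a b u w : ℕ, IsNum r A B b →
    IsNum (flip r) B A a → A.card + 1 = u + b → B.card + 1 = w + a →
    (a < b → m r A B + 1 ≤ u * w + a) ∧ (a = b → m r A B + 1 ≤ u * w + A.card) := by
  intro N
  induction N using Nat.strong_induction_on with
  | _ N ih =>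
  intro r A B hN hA hn hn' a b u w hb ha hu hw
  by_cases hab : a ≤ b
  swap
  · exact ⟨fun h => by omega, fun h => by omega⟩
  have hbp : b ≤ A.card := num_le hb hn
  have haq : a ≤ B.card := num_le ha hn'
  have hb1 : 1 ≤ b := num_pos hb hA
  have hbq : b ≤ B.card := num_le' hb
  have hu1 : 1 ≤ u := by omega
  have hw1 : 1 ≤ w := by omega
  obtain ⟨x, hx, hmax⟩ := exists_max_image A (fun t => (B.filter (r t)).card) hA
  have hdx : (B.filter (r x)).card ≤ w := by
    have := deg_le ha hn' hx
    have h1 : (B.filter (fun y => flip r y x)) = B.filter (r x) := rfl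
    rw [h1] at this
    omega
  by_cases hcrit : ∃ C ⊆ B, C.card + 1 = b ∧ Cov r (A.erase x) C
  · obtain ⟨C, hC, hC1, hC2⟩ := hcrit
    have h := critical hb hn hx hmax hC hC1 hC2 hu (v := B.card + 1 - b) (by omega)
    obtain ⟨d, rfl⟩ := Nat.exists_eq_add_of_le hab
    have hv : B.card + 1 - (a + d) + d = w := by omega
    generalize B.card + 1 - (a + d) = v at h hv
    subst hv
    have hmul : u * (v + d) = u * v + u * d := by ring
    refine ⟨fun h1 => ?_, fun h1 => ?_⟩
    · have := key_mul hu1 (show 1 ≤ d by omega)
      omega
    · have : d = 0 := by omega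
      subst this
      simpa using h
  · -- `x` can be deleted without changing `b`
    have hb' : IsNum r (A.erase x) B b := by
      refine ⟨?_, ?_⟩
      · obtain ⟨C, h1, h2, h3⟩ := hb.1
        exact ⟨C, h1, h2, fun t ht => h3 t (mem_of_mem_erase ht)⟩
      · intro C hC hcov
        by_contra hlt
        push Not at hlt
        by_cases h1 : C.card + 1 = b
        · exact hcrit ⟨C, hC, h1, hcov⟩
        · obtain ⟨y, hy, hr⟩ := hn x hx
          have h2 := hb.2 (insert y C) (insert_subset hy hC) (by
            intro t ht
            by_cases htx : t = x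
            · rw [htx]; exact ⟨y, mem_insert_self _ _, hr⟩
            · obtain ⟨z, hz, hrz⟩ := hcov t (mem_erase.2 ⟨htx, ht⟩)
              exact ⟨z, mem_insert_of_mem hz, hrz⟩)
          have h3 := card_insert_le y C
          omega
    have hnx : Cov r (A.erase x) B := fun t ht => hn t (mem_of_mem_erase ht)
    have hbp' : b ≤ (A.erase x).card := num_le hb' hnx
    have hcx := card_erase_of_mem hx
    have hA' : (A.erase x).Nonempty := card_pos.1 (by omega)
    obtain ⟨u1, rfl⟩ : ∃ u1, u = u1 + 1 := ⟨u - 1, by omega⟩
    have hu1' : 1 ≤ u1 := by omega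
    by_cases hpend : ∀ y ∈ B, ∃ x' ∈ A.erase x, flip r y x'
    · -- no column becomes isolated
      obtain ⟨a', ha'⟩ := exists_num (r := flip r) (A := B) (B := A.erase x) hpend
      have haa' : a ≤ a' := by
        obtain ⟨X, h1, h2, h3⟩ := ha'.1
        rw [← h2]
        exact ha.2 X (h1.trans (erase_subset _ _)) h3
      have haq' : a' ≤ B.card := num_le ha' hpend
      obtain ⟨d, rfl⟩ := Nat.exists_eq_add_of_le haa'
      obtain ⟨w', hw'⟩ : ∃ w', B.card + 1 = w' + (a + d) := ⟨B.card + 1 - (a + d), by omega⟩
      have hww : w = w' + d := by omega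
      subst hww
      have hm := m_erase (r := r) (B := B) hx
      have hmul : u1 * (w' + d) = u1 * w' + u1 * d := by ring
      have hmul2 : (u1 + 1) * (w' + d) = u1 * (w' + d) + (w' + d) := by ring
      have hud : d ≤ u1 * d := Nat.le_mul_of_pos_left d (by omega)
      have hih1 := ih ((A.erase x).card + B.card) (by omega) r (A.erase x) B rfl hA' hnx hpend
        (a + d) b u1 w' hb' ha' (by omega) hw'
      rcases Nat.lt_trichotomy (a + d) b with hlt | heq | hgt
      · have h1 := hih1.1 hlt
        exact ⟨fun _ => by omega, fun _ => by omega⟩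
      · have h1 := hih1.2 heq
        refine ⟨fun h2 => ?_, fun h2 => by omega⟩
        have := key_mul hu1' (show 1 ≤ d by omega)
        omega
      · have hBne : B.Nonempty := card_pos.1 (by omega)
        have h1 := (ih (B.card + (A.erase x).card) (by omega) (flip r) B (A.erase x) rfl hBne
          hpend hnx b (a + d) w' u1 ha' hb' hw' (by omega)).1 hgt
        rw [← m_flip] at h1
        have hmul3 : w' * u1 = u1 * w' := by ring
        exact ⟨fun h2 => by omega, fun h2 => by omega⟩
    · -- a column whose only neighbour is `x`
      push Not at hpend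
      obtain ⟨y1, hy1, hno⟩ := hpend
      have hry1 : r x y1 := by
        obtain ⟨x', hx', hr⟩ := hn' y1 hy1
        by_cases h : x' = x
        · rw [h] at hr; exact hr
        · exact absurd hr (hno x' (mem_erase.2 ⟨h, hx'⟩))
      by_cases hdeg : ∃ y2 ∈ B, y2 ≠ y1 ∧ r x y2
      · obtain ⟨y2, hy2, hne, hr2⟩ := hdeg
        have hnA : Cov r A (B.erase y1) := by
          intro t ht
          by_cases htx : t = x
          · rw [htx]; exact ⟨y2, mem_erase.2 ⟨hne, hy2⟩, hr2⟩
          · obtain ⟨y, hy, hr⟩ := hn t ht
            refine ⟨y, mem_erase.2 ⟨?_, hy⟩, hr⟩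
            rintro rfl
            exact hno t (mem_erase.2 ⟨htx, ht⟩) hr
        have hnB : Cov (flip r) (B.erase y1) A := fun y hy => hn' y (mem_of_mem_erase hy)
        obtain ⟨b', hb2⟩ := exists_num hnA
        obtain ⟨a', ha2⟩ := exists_num hnB
        have hcy := card_erase_of_mem hy1
        have hBpos : 0 < B.card := card_pos.2 ⟨y1, hy1⟩
        have hbb' : b ≤ b' := by
          obtain ⟨C, h1, h2, h3⟩ := hb2.1
          rw [← h2]
          exact hb.2 C (h1.trans (erase_subset _ _)) h3
        have ha'a : a' ≤ a := by
          obtain ⟨X, h1, h2, h3⟩ := ha.1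
          rw [← h2]
          exact ha2.2 X h1 (fun y hy => h3 y (mem_of_mem_erase hy))
        have haa' : a ≤ a' + 1 := by
          obtain ⟨X, h1, h2, h3⟩ := ha2.1
          have h4 := ha.2 (insert x X) (insert_subset hx h1) (by
            intro y hy
            by_cases hyy : y = y1
            · rw [hyy]; exact ⟨x, mem_insert_self _ _, hry1⟩
            · obtain ⟨z, hz, hrz⟩ := h3 y (mem_erase.2 ⟨hyy, hy⟩)
              exact ⟨z, mem_insert_of_mem hz, hrz⟩)
          have h5 := card_insert_le x X
          omega
        have hm : m r A B = m r A (B.erase y1) + 1 := by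
          rw [m_flip r A B, m_flip r A (B.erase y1), m_erase hy1]
          congr 1
          rw [card_eq_one]
          refine ⟨x, ?_⟩
          ext t
          rw [mem_filter, mem_singleton]
          constructor
          · rintro ⟨h1, h2⟩
            by_contra h3
            exact hno t (mem_erase.2 ⟨h3, h1⟩) h2
          · rintro rfl
            exact ⟨hx, hry1⟩
        have hb'p : b' ≤ A.card := num_le hb2 hnA
        have ha'q : a' ≤ (B.erase y1).card := num_le ha2 hnB
        obtain ⟨u2, hu2⟩ : ∃ u2, A.card + 1 = u2 + b' := ⟨A.card + 1 - b', by omega⟩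
        obtain ⟨w2, hw2⟩ : ∃ w2, (B.erase y1).card + 1 = w2 + a' :=
          ⟨(B.erase y1).card + 1 - a', by omega⟩
        have hih1 := ih (A.card + (B.erase y1).card) (by omega) r A (B.erase y1) rfl hA hnA hnB
          a' b' u2 w2 hb2 ha2 hu2 hw2
        have hu2le : u2 ≤ u1 + 1 := by omega
        -- `u2 * w2 + (a' - a) + 1 ≤ (u1 + 1) * w` in both cases
        have hprod : u2 * w2 + a' + 1 ≤ (u1 + 1) * w + a := by
          rcases Nat.lt_or_ge a' a with h | h
          · have hw2' : w2 = w := by omega
            rw [hw2']
            have := Nat.mul_le_mul_right w hu2le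
            omega
          · obtain ⟨w3, rfl⟩ : ∃ w3, w = w3 + 1 := ⟨w - 1, by omega⟩
            have hw2' : w2 = w3 := by omega
            rw [hw2']
            have h1 := Nat.mul_le_mul_right w3 hu2le
            have h2 : (u1 + 1) * (w3 + 1) = (u1 + 1) * w3 + (u1 + 1) := by ring
            omega
        rcases Nat.lt_or_ge a' b' with h | h
        · have h1 := hih1.1 h
          exact ⟨fun _ => by omega, fun _ => by omega⟩
        · have h1 := hih1.2 (by omega)
          exact ⟨fun _ => by omega, fun _ => by omega⟩
      · -- all rows have degree one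
        push Not at hdeg
        have hdx1 : (B.filter (r x)).card ≤ 1 := by
          rw [card_le_one]
          intro y hy y' hy'
          rw [mem_filter] at hy hy'
          by_contra hne
          by_cases h1 : y = y1
          · have h2 : y' ≠ y1 := fun h => hne (h1.trans h.symm)
            exact hdeg y' hy'.1 h2 hy'.2
          · exact hdeg y hy.1 h1 hy.2
        have hall : ∀ t ∈ A, (B.filter (r t)).card ≤ 1 := fun t ht => (hmax t ht).trans hdx1
        have hmle : m r A B ≤ A.card := by
          unfold m
          calc ∑ t ∈ A, (B.filter (r t)).card ≤ ∑ t ∈ A, 1 := sum_le_sum hall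
            _ = A.card := by simp
        have hqa : B.card ≤ a := by
          obtain ⟨X, h1, h2, h3⟩ := ha.1
          rw [← h2]
          choose! g hg1 hg2 using h3
          apply card_le_card_of_injOn g
          · intro y hy
            exact hg1 y hy
          · intro y hy y' hy' h
            have h4 := hall (g y) (h1 (hg1 y hy))
            rw [card_le_one] at h4
            apply h4
            · exact mem_filter.2 ⟨hy, hg2 y hy⟩
            · refine mem_filter.2 ⟨hy', ?_⟩
              rw [h]
              exact hg2 y' hy'
        refine ⟨fun h => by omega, fun _ => ?_⟩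
        have : 1 ≤ (u1 + 1) * w := Nat.mul_pos (by omega) (by omega)
        omega

end Run7.h198.TD
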